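import Pool.Agent.H36.W.Euler

set_option autoImplicit false
set_option linter.unusedSectionVars false
open Finset

/-!
# Ears of a row

`Ear X p b v`: in the state `sgn p b` the wire of the outgoing end `v` closes up with one passage or
with two passages and one wire of the row. In a row whose root has a constant turning there is an ear
different from any given wire.
-/

namespace Pool.Agent.H36.W

open Pool.Agent.H75.Perc Pool.Agent.H81.G1

variable {N : ℕ} {X : Net (Fin N)} {p : Fin N → Bool}

/-- the ends of the wires inside the row -/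
def Lin (x : Fin N × Dir) : Prop :=
  (x.2 = .E ∧ (x.1 : ℕ) + 1 < N) ∨ (x.2 = .W ∧ 0 < (x.1 : ℕ))

instance (x : Fin N × Dir) : Decidable (Lin x) := by unfold Lin; infer_instance

lemma Lin.cases {x : Fin N × Dir} (h : Lin x) (hr : X.IsRow) (hinv : ∀ x, X.π (X.π x) = x) :
    (x.2 = .E ∧ (X.π x).2 = .W ∧ ((X.π x).1 : ℕ) = x.1 + 1) ∨
      (x.2 = .W ∧ (X.π x).2 = .E ∧ ((X.π x).1 : ℕ) + 1 = x.1) := by
  obtain ⟨i, d⟩ := x
  rcases h with ⟨h1, h2⟩ | ⟨h1, h2⟩
  · simp only at h1 h2
    subst h1
    left
    have := hr i ⟨(i : ℕ) + 1, h2⟩ rfl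
    rw [this]
    exact ⟨rfl, rfl, rfl⟩
  · simp only at h1 h2
    subst h1
    right
    have h3 : ((i : ℕ) - 1) < N := by omega
    have := hr ⟨(i : ℕ) - 1, h3⟩ i (by show (i : ℕ) = (i : ℕ) - 1 + 1; omega)
    have h4 : X.π (i, .W) = (⟨(i : ℕ) - 1, h3⟩, .E) := by rw [← this, hinv]
    rw [h4]
    refine ⟨rfl, rfl, ?_⟩
    show (i : ℕ) - 1 + 1 = i
    omega

lemma Lin.pi {x : Fin N × Dir} (h : Lin x) (hr : X.IsRow) (hinv : ∀ x, X.π (X.π x) = x) :
    Lin (X.π x) := by
  rcases h.cases hr hinv with ⟨_, h2, h3⟩ | ⟨_, h2, h3⟩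
  · right
    exact ⟨h2, by omega⟩
  · left
    exact ⟨h2, by have := x.1.2; omega⟩

lemma Lin.not_par {x : Fin N × Dir} (h : Lin x) (s : Fin N → Bool) : ¬ Lin (par s x) := by
  obtain ⟨i, d⟩ := x
  rintro (⟨h1, -⟩ | ⟨h1, -⟩) <;> rcases h with ⟨h2, -⟩ | ⟨h2, -⟩ <;>
    simp only [par] at h1 h2 <;> subst h2 <;> cases hs : s i <;> simp [hs, Dir.mate] at h1

lemma Lin.par_ne {x : Fin N × Dir} (h : Lin x) (hr : X.IsRow) (hinv : ∀ x, X.π (X.π x) = x) :
    (X.π x).1 ≠ x.1 := by
  intro h1
  rcases h.cases hr hinv with ⟨_, _, h3⟩ | ⟨_, _, h3⟩ <;> rw [h1] at h3 <;> omega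

/-- an ear of the state `sgn p b` with the outgoing end `v` of its outer wire -/
def Ear (X : Net (Fin N)) (p : Fin N → Bool) (b : Bool) (v : Fin N × Dir) : Prop :=
  inc p v = false ∧ ¬ Lin v ∧ (X.π v = par (sgn p b) v ∨
    (Lin (par (sgn p b) (X.π v)) ∧ X.π (par (sgn p b) (X.π v)) = par (sgn p b) v))

/-- a wire is an ear of at most one of the two states -/
lemma Ear.unique (hX : X.Good p) (hr : X.IsRow) {v : Fin N × Dir} (h1 : Ear X p true v)
    (h2 : Ear X p false v) : False := by
  obtain ⟨-, -, h1⟩ := h1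
  obtain ⟨-, -, h2⟩ := h2
  have hne : par (sgn p true) v ≠ par (sgn p false) v := by
    intro h
    obtain ⟨i, d⟩ := v
    unfold par sgn at h
    have := congrArg Prod.snd h
    simp only at this
    cases hp : p i <;> cases d <;> simp [hp, Dir.mate] at this
  rcases h1 with h1 | ⟨k1, h1⟩ <;> rcases h2 with h2 | ⟨k2, h2⟩
  · exact hne (h1.symm.trans h2)
  · have := k2.par_ne hr hX.inv
    rw [h2] at this
    apply this
    show v.1 = (X.π v).1
    rw [h1]; rfl
  · have := k1.par_ne hr hX.inv
    rw [h1] at this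
    apply this
    show v.1 = (X.π v).1
    rw [h2]; rfl
  · have a1 := k1.cases hr hX.inv
    have a2 := k2.cases hr hX.inv
    rw [h1] at a1
    rw [h2] at a2
    have e1 : (par (sgn p true) v).1 = v.1 := rfl
    have e2 : (par (sgn p false) v).1 = v.1 := rfl
    have e3 : (par (sgn p true) (X.π v)).1 = (X.π v).1 := rfl
    have e4 : (par (sgn p false) (X.π v)).1 = (X.π v).1 := rfl
    rw [e1, e3] at a1
    rw [e2, e4] at a2
    have hdir : (par (sgn p true) (X.π v)).2 ≠ (par (sgn p false) (X.π v)).2 := by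
      intro h
      generalize X.π v = w at h
      obtain ⟨i, d⟩ := w
      unfold par sgn at h
      simp only at h
      cases hp : p i <;> cases d <;> simp [hp, Dir.mate] at h
    rcases a1 with ⟨b1, b2, b3⟩ | ⟨b1, b2, b3⟩ <;> rcases a2 with ⟨c1, c2, c3⟩ | ⟨c1, c2, c3⟩
    · exact hdir (b1.trans c1.symm)
    · omega
    · omega
    · exact hdir (b1.trans c1.symm)

/-- number of the incoming ends -/
lemma card_In (p : Fin N → Bool) : Fintype.card (In p) = 2 * N := by
  have := sum_in p (fun _ => 1)
  simp only [sum_const, card_univ, smul_eq_mul, mul_one, ite_self, Fintype.card_fin] at this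
  rw [this, mul_comm]

open Classical in
/-- number of the passages which leave through a wire of the row -/
lemma card_lin (hX : X.Good p) (hr : X.IsRow) (s : Fin N → Bool) :
    N - 1 ≤ (univ.filter (fun c : In p => Lin (par s c))).card := by
  have h1 : ∀ k : Fin (N - 1), (k : ℕ) < N := fun k => by have := k.2; omega
  have h2 : ∀ k : Fin (N - 1), (k : ℕ) + 1 < N := fun k => by have := k.2; omega
  set w : Fin (N - 1) → Fin N × Dir := fun k =>
    if p ⟨k, h1 k⟩ = false then (⟨k, h1 k⟩, .E) else (⟨(k : ℕ) + 1, h2 k⟩, .W) with hw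
  have hwl : ∀ k, Lin (w k) := by
    intro k
    rw [hw]
    simp only
    split_ifs
    · left; exact ⟨rfl, h2 k⟩
    · right; exact ⟨rfl, Nat.succ_pos _⟩
  have hwo : ∀ k, inc p (w k) = false := by
    intro k
    rw [hw]
    simp only
    split_ifs with h
    · unfold inc Dir.v
      simp [h]
    · have h3 := hX.ty (⟨k, h1 k⟩, .E)
      rw [hr ⟨k, h1 k⟩ ⟨(k : ℕ) + 1, h2 k⟩ rfl] at h3
      rw [h3]
      unfold inc Dir.v
      simpa using h
  have hwi : Function.Injective w := by
    intro k k' h
    rw [hw] at h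
    simp only at h
    have h3 := congrArg Prod.fst h
    have h4 := congrArg Prod.snd h
    apply Fin.ext
    split_ifs at h3 h4 <;> simp_all [Fin.ext_iff]
  have h3 : ∀ k, inc p (par s (w k)) = true := fun k => by rw [inc_par, hwo k]; rfl
  have hle := Finset.card_le_card_of_injOn (s := (univ : Finset (Fin (N - 1))))
    (t := univ.filter (fun c : In p => Lin (par s c))) (fun k => ⟨par s (w k), h3 k⟩)
    (fun k _ => by
      show _ ∈ ((univ.filter (fun c : In p => Lin (par s c)) : Finset (In p)) : Set (In p))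
      rw [mem_coe, mem_filter]
      refine ⟨mem_univ _, ?_⟩
      rw [par_par]
      exact hwl k)
    (fun k _ k' _ h => by
      have h4 := congrArg Subtype.val h
      simp only at h4
      apply hwi
      rw [← par_par s (w k), h4, par_par])
  rwa [card_univ, Fintype.card_fin] at hle

open Classical in
/-- number of the passages which leave through an outer wire -/
lemma card_ext (hX : X.Good p) (hr : X.IsRow) (hN : 0 < N) (s : Fin N → Bool) :
    ∑ c : In p, (if Lin (par s c) then 0 else 1) ≤ N + 1 := by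
  have h1 : ∑ c : In p, (if Lin (par s c) then 0 else 1) =
      (univ.filter (fun c : In p => ¬ Lin (par s c))).card := by
    rw [Finset.card_filter]
    refine Finset.sum_congr rfl fun c _ => ?_
    by_cases h : Lin (par s c) <;> simp [h]
  rw [h1]
  have h2 := Finset.card_filter_add_card_filter_not (s := (univ : Finset (In p)))
    (fun c : In p => Lin (par s c))
  rw [card_univ, card_In] at h2
  have h3 := card_lin hX hr s
  omega

open Classical in
/-- a cycle with one passage through an outer wire gives an ear -/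
lemma cyc_ear (hX : X.Good p) (hr : X.IsRow) (b : Bool) : ∀ q : Cy (stepP hX (sgn p b)),
    1 ≤ ∑ c ∈ univ.filter (fun c => cy (stepP hX (sgn p b)) c = q),
        (if Lin (par (sgn p b) c.1) then 0 else 1) ∧
      (∑ c ∈ univ.filter (fun c => cy (stepP hX (sgn p b)) c = q),
        (if Lin (par (sgn p b) c.1) then 0 else 1) = 1 →
      ∃ c : In p, cy (stepP hX (sgn p b)) c = q ∧ Ear X p b (par (sgn p b) c.1)) := by
  set s := sgn p b with hs
  set f := stepP hX s with hf
  intro q
  have hfc : ∀ c, cy f (f c) = cy f c := by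
    intro c
    rw [cy_eq]
    exact Equiv.Perm.sameCycle_apply_left.2 (Equiv.Perm.SameCycle.refl _ _)
  have hstep : ∀ c : In p, Lin (par s c.1) → ¬ Lin (par s (f c).1) := by
    intro c h
    exact (h.pi hr hX.inv).not_par s
  obtain ⟨c, hcq, hcl⟩ : ∃ c, cy f c = q ∧ ¬ Lin (par s c.1) := by
    by_cases h : Lin (par s q.out.1)
    · exact ⟨f q.out, by rw [hfc, cy_out], hstep _ h⟩
    · exact ⟨q.out, cy_out f q, h⟩
  have hmem : c ∈ univ.filter (fun c => cy f c = q) := mem_filter.2 ⟨mem_univ _, hcq⟩
  refine ⟨?_, ?_⟩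
  · refine le_trans ?_ (Finset.single_le_sum (f := fun c : In p => if Lin (par s c.1) then 0 else 1)
      (fun _ _ => Nat.zero_le _) hmem)
    rw [if_neg hcl]
  · intro h1
    have huniq : ∀ c', cy f c' = q → ¬ Lin (par s c'.1) → c' = c := by
      intro c' h2 h3
      by_contra hne
      have hsub : ({c, c'} : Finset (In p)) ⊆ univ.filter (fun c => cy f c = q) := by
        intro y hy
        rw [mem_insert, mem_singleton] at hy
        rcases hy with rfl | rfl
        · exact hmem
        · exact mem_filter.2 ⟨mem_univ _, h2⟩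
      have h4 := Finset.sum_le_sum_of_subset (f := fun c : In p => if Lin (par s c.1) then 0 else 1)
        hsub
      rw [Finset.sum_pair (Ne.symm hne), if_neg hcl, if_neg h3] at h4
      omega
    refine ⟨c, hcq, ?_, hcl, ?_⟩
    · rw [inc_par, c.2]; rfl
    · have e1 : X.π (par s c.1) = (f c).1 := rfl
      rw [par_par, e1]
      by_cases h2 : Lin (par s (f c).1)
      · right
        refine ⟨h2, ?_⟩
        have e2 : X.π (par s (f c).1) = (f (f c)).1 := rfl
        rw [e2]
        exact congrArg Subtype.val (huniq _ (by rw [hfc, hfc]; exact hcq) (hstep _ h2))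
      · left
        exact congrArg Subtype.val (huniq _ (by rw [hfc]; exact hcq) h2)

/-- **There is an ear different from `u`.** -/
theorem exists_ear (hX : X.Good p) (hr : X.IsRow) {T0 : ℤ}
    (h0 : ∀ s, X.KT s X.x0 (X.ln s X.x0) = T0) (u : Fin N × Dir) :
    ∃ b v, v ≠ u ∧ Ear X p b v := by
  classical
  have hN : 0 < N := u.1.pos
  by_contra hno
  push Not at hno
  have hno' : ∀ b v, Ear X p b v → v = u := fun b v h => by
    by_contra hne
    exact hno b v hne h
  have hc := row_connected hr hX.inv
  have heu := euler hX hc h0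
  rw [Fintype.card_fin] at heu
  have key : ∀ b : Bool, 2 * Fintype.card (Cy (stepP hX (sgn p b))) ≤
      (N + 1) + (if Ear X p b u then 1 else 0) := by
    intro b
    set s := sgn p b with hs
    set f := stepP hX s with hf
    set ν : Cy f → ℕ := fun q => ∑ c ∈ univ.filter (fun c => cy f c = q),
      (if Lin (par s c.1) then 0 else 1) with hν
    have hsum : ∑ q, ν q ≤ N + 1 := by
      have h1 := sum_cy f (fun c : In p => if Lin (par s c.1) then 0 else 1)
      have h2 := card_ext hX hr hN s
      rw [← h1] at h2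
      exact h2
    have h1 : ∀ q, 1 ≤ ν q := fun q => (cyc_ear hX hr b q).1
    have h2 : ∀ q, ν q = 1 → Ear X p b u ∧ ∃ c : In p, c.1 = par s u ∧ cy f c = q := by
      intro q hq
      obtain ⟨c, hcq, he⟩ := (cyc_ear hX hr b q).2 hq
      have h3 := hno' b _ he
      refine ⟨by rw [← h3]; exact he, c, ?_, hcq⟩
      rw [← h3, par_par]
    by_cases hE : Ear X p b u
    · rw [if_pos hE]
      have hin : inc p (par s u) = true := by rw [inc_par, hE.1]; rfl
      set q0 := cy f ⟨par s u, hin⟩ with hq0
      have h3 : ∀ q ∈ univ.erase q0, 2 ≤ ν q := by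
        intro q hq
        by_contra hlt
        have h4 : ν q = 1 := by have := h1 q; omega
        obtain ⟨-, c, hc1, hc2⟩ := h2 q h4
        apply (mem_erase.1 hq).1
        rw [← hc2, hq0]
        congr 1
        exact Subtype.ext hc1
      have h4 : (univ.erase q0).card • 2 ≤ ∑ q ∈ univ.erase q0, ν q :=
        Finset.card_nsmul_le_sum (univ.erase q0) ν 2 h3
      rw [card_erase_of_mem (mem_univ _), card_univ, smul_eq_mul] at h4
      have h5 := Finset.add_sum_erase univ ν (mem_univ q0)
      have h6 := h1 q0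
      omega
    · rw [if_neg hE]
      have h3 : ∀ q ∈ (univ : Finset (Cy f)), 2 ≤ ν q := by
        intro q _
        by_contra hlt
        have h4 : ν q = 1 := by have := h1 q; omega
        exact hE (h2 q h4).1
      have h4 : (univ : Finset (Cy f)).card • 2 ≤ ∑ q, ν q :=
        Finset.card_nsmul_le_sum univ ν 2 h3
      rw [card_univ, smul_eq_mul] at h4
      omega
  have k1 := key true
  have k2 := key false
  have hex : ¬ (Ear X p true u ∧ Ear X p false u) := fun h => Ear.unique hX hr h.1 h.2
  by_cases e1 : Ear X p true u <;> by_cases e2 : Ear X p false u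
  · exact hex ⟨e1, e2⟩
  · rw [if_pos e1] at k1; rw [if_neg e2] at k2; omega
  · rw [if_neg e1] at k1; rw [if_pos e2] at k2; omega
  · rw [if_neg e1] at k1; rw [if_neg e2] at k2; omega

end Pool.Agent.H36.W
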