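import Mathlib
import Pool.Agent.H81.G1.Loops

set_option autoImplicit false
set_option linter.unusedSectionVars false
open Finset

/-!
# Euler characteristic of a row from the turning of the root

In a connected network in which the loop of the root has the same turning in all states, every other
loop of the state `sgn p true` (all passages turn left) has turning `4`, every other loop of
`sgn p false` has turning `-4`. Hence the two states together have `n + 2` loops, `n` = number of tiles.
-/

namespace Pool.Agent.H36.W

open Pool.Agent.H75.Perc Pool.Agent.H81.G1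

variable {ι : Type*} [Fintype ι] [DecidableEq ι] {X : Net ι} {p : ι → Bool}

/-- all passages turn left (`b = true`) or right (`b = false`) -/
def sgn (p : ι → Bool) (b : Bool) (i : ι) : Bool := xor (p i) b

/-- the sign of `b` -/
def sb (b : Bool) : ℤ := if b then 1 else -1

lemma tn_sgn (b : Bool) {x : ι × Dir} (hx : inc p x = true) :
    x.2.tn (sgn p b x.1) = sb b := by
  obtain ⟨i, d⟩ := x
  unfold inc at hx
  unfold sgn sb
  cases h : p i <;> cases b <;> cases d <;> simp_all [Dir.v, Dir.tn]

/-- **Signed turning of the loops.** If all the tiles which are met by a loop turn it by `e` then its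
turning is `4 e`. -/
theorem all_turn_sgn (hX : X.Good p) (hc : X.Connected) (T0 : ℤ)
    (h0 : ∀ s L, Orb (X.F p s) X.x0 L → KK (X.F p s) (X.dl p s) X.x0 0 L = T0) (e0 : ℤ) :
    ∀ s x M, ¬ InOrb (X.F p s) X.x0 x → Orb (X.F p s) x M →
      (∀ i, InOrb (X.F p s) x (inA p i) ∨ InOrb (X.F p s) x (inB p i) →
        X.dl p s (inA p i) = e0) →
      KK (X.F p s) (X.dl p s) x 0 M = 4 * e0 := by
  classical
  have main : ∀ (n : ℕ) (s : ι → Bool),
      (univ.filter (fun y => ¬ InOrb (X.F p s) X.x0 y)).card ≤ n → ∀ x M,
      ¬ InOrb (X.F p s) X.x0 x → Orb (X.F p s) x M →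
      (∀ i, InOrb (X.F p s) x (inA p i) ∨ InOrb (X.F p s) x (inB p i) →
        X.dl p s (inA p i) = e0) →
      KK (X.F p s) (X.dl p s) x 0 M = 4 * e0 := by
    intro n
    induction n with
    | zero =>
      intro s hn x M hx _ _
      exfalso
      have : x ∈ univ.filter (fun y => ¬ InOrb (X.F p s) X.x0 y) := by
        rw [mem_filter]; exact ⟨mem_univ _, hx⟩
      rw [Finset.card_eq_zero.1 (Nat.le_zero.1 hn)] at this
      exact absurd this (notMem_empty _)
    | succ n ih =>
      intro s hn x M hx hM he0
      set f := X.F p s with hf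
      have hinj : Function.Injective f := F_inj hX s
      obtain ⟨L, hL⟩ := F_orb hX s X.x0
      -- a tile where the loop of the root meets another loop
      obtain ⟨i, P, Q, hPQ, hP, hQ⟩ : ∃ i P Q, ((P = inA p i ∧ Q = inB p i) ∨
          (P = inB p i ∧ Q = inA p i)) ∧ InOrb f X.x0 P ∧ ¬ InOrb f X.x0 Q := by
        by_contra hno
        apply hx
        have hback : ∀ y, InOrb f X.x0 (f y) → InOrb f X.x0 y := by
          intro y hy
          have h1 : InOrb f y (f y) := ⟨1, rfl⟩
          obtain ⟨K, hK⟩ := F_orb hX s y
          exact inOrb_trans hy (inOrb_symm hK h1)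
        have hfw : ∀ y, InOrb f X.x0 y → InOrb f X.x0 (f y) := fun y hy => inOrb_trans hy ⟨1, rfl⟩
        have hboth : ∀ i, (InOrb f X.x0 (inA p i) ↔ InOrb f X.x0 (inB p i)) := by
          intro i
          constructor
          · intro h; by_contra h'
            exact hno ⟨i, _, _, Or.inl ⟨rfl, rfl⟩, h, h'⟩
          · intro h; by_contra h'
            exact hno ⟨i, _, _, Or.inr ⟨rfl, rfl⟩, h, h'⟩
        apply hc {y | InOrb f X.x0 y} ⟨0, rfl⟩
        · intro y hy
          by_cases hiy : inc p y = true
          · have h1 : inc p (X.π y) ≠ true := by rw [hX.ty, hiy]; simp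
            have h2 : f (X.π y) = y := by rw [hf, F_out h1, hX.inv]
            apply hback
            rw [h2]; exact hy
          · have h2 : f y = X.π y := F_out hiy
            show InOrb f X.x0 (X.π y)
            rw [← h2]; exact hfw y hy
        · intro y hy d
          have hA : InOrb f X.x0 (inA p y.1) := by
            by_cases hiy : inc p y = true
            · rcases in_cases hiy with h | h
              · rw [← h]; exact hy
              · rw [hboth, ← h]; exact hy
            · rcases out_cases (s := s) hiy with h | h
              · apply hback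
                rw [hf, F_in (inc_inA _), ← h]; exact hy
              · rw [hboth]
                apply hback
                rw [hf, F_in (inc_inB _), ← h]; exact hy
          have hB : InOrb f X.x0 (inB p y.1) := (hboth _).1 hA
          show InOrb f X.x0 (y.1, d)
          by_cases hiy : inc p (y.1, d) = true
          · rcases in_cases hiy with h | h
            · rw [h]; exact hA
            · rw [h]; exact hB
          · rcases out_cases (s := s) hiy with h | h
            · rw [h]
              have := hfw _ hA
              rwa [hf, F_in (inc_inA _)] at this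
            · rw [h]
              have := hfw _ hB
              rwa [hf, F_in (inc_inB _)] at this
      obtain ⟨ab1, ab2, ab3, ab4⟩ := dl_AB (X := X) (p := p) s i
      set e := X.dl p s (inA p i) with he
      set s' := flip1 s i with hs'
      have hsw : Swapped f (X.F p s') P Q := by
        rcases hPQ with ⟨rfl, rfl⟩ | ⟨rfl, rfl⟩
        · exact F_swapped s i
        · exact (F_swapped s i).comm
      have hoff : ∀ y, y ≠ P → y ≠ Q → X.dl p s' y = X.dl p s y := by
        intro y h1 h2
        rcases hPQ with ⟨rfl, rfl⟩ | ⟨rfl, rfl⟩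
        · exact dl_off s i y h1 h2
        · exact dl_off s i y h2 h1
      have hP1 : X.dl p s P = e := by
        rcases hPQ with ⟨rfl, rfl⟩ | ⟨rfl, rfl⟩
        · rfl
        · exact ab1
      have hQ1 : X.dl p s Q = e := by
        rcases hPQ with ⟨rfl, rfl⟩ | ⟨rfl, rfl⟩
        · exact ab1
        · rfl
      have hP2 : X.dl p s' P = -e := by
        rcases hPQ with ⟨rfl, rfl⟩ | ⟨rfl, rfl⟩
        · exact ab2
        · exact ab3
      have hQ2 : X.dl p s' Q = -e := by
        rcases hPQ with ⟨rfl, rfl⟩ | ⟨rfl, rfl⟩
        · exact ab3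
        · exact ab2
      by_cases hxQ : InOrb f x Q
      · -- the loop of `x` is the loop of `Q`
        have hee : e = e0 := by
          apply he0 i
          rcases hPQ with ⟨rfl, rfl⟩ | ⟨rfl, rfl⟩
          · right; exact hxQ
          · left; exact hxQ
        obtain ⟨j, hj, hjQ⟩ := (hM.inOrb_iff Q).1 hxQ
        obtain ⟨r1, r2⟩ := hM.rotate hinj (X.dl p s) 0 j
        rw [hjQ] at r1 r2
        obtain ⟨L', hL'⟩ := F_orb hX s' X.x0
        have := merge_turn hsw hinj hoff hP1 hQ1 hP2 hQ2 hL hL' r1
          (by rw [h0 s L hL, h0 s' L' hL']) hP hQ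
        rw [← r2, this, hee]
      · have hxP : ¬ InOrb f x P := by
          intro h
          apply hx
          exact inOrb_trans hP (inOrb_symm hM h)
        rw [← avoid_KK hsw hoff hxP hxQ]
        obtain ⟨MQ, hMQ⟩ := F_orb hX s Q
        obtain ⟨g1, g2, g3, g4⟩ := hsw.merge hL hMQ hP hQ
        have hiff : ∀ y, InOrb (X.F p s') x y ↔ InOrb f x y := by
          intro y
          unfold InOrb
          constructor
          · rintro ⟨j, hj⟩; exact ⟨j, by rw [← avoid_orb hsw hxP hxQ]; exact hj⟩
          · rintro ⟨j, hj⟩; exact ⟨j, by rw [avoid_orb hsw hxP hxQ]; exact hj⟩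
        apply ih s' _ x M _ (avoid_Orb hsw hxP hxQ hM)
        · intro k hk
          rw [hiff, hiff] at hk
          have hki : k ≠ i := by
            rintro rfl
            rcases hPQ with ⟨rfl, rfl⟩ | ⟨rfl, rfl⟩ <;> rcases hk with hk | hk
            · exact hxP hk
            · exact hxQ hk
            · exact hxQ hk
            · exact hxP hk
          rw [hoff _ ?_ ?_]
          · exact he0 k hk
          · rintro h
            have := congrArg Prod.fst h
            rcases hPQ with ⟨rfl, rfl⟩ | ⟨rfl, rfl⟩
            · rw [inA_fst, inA_fst] at this; exact hki this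
            · rw [inA_fst, inB_fst] at this; exact hki this
          · rintro h
            have := congrArg Prod.fst h
            rcases hPQ with ⟨rfl, rfl⟩ | ⟨rfl, rfl⟩
            · rw [inA_fst, inB_fst] at this; exact hki this
            · rw [inA_fst, inA_fst] at this; exact hki this
        · have hlt : (univ.filter (fun y => ¬ InOrb (X.F p s') X.x0 y)).card <
              (univ.filter (fun y => ¬ InOrb f X.x0 y)).card := by
            apply Finset.card_lt_card
            rw [Finset.ssubset_iff_of_subset]
            · refine ⟨Q, ?_, ?_⟩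
              · rw [mem_filter]; exact ⟨mem_univ _, hQ⟩
              · rw [mem_filter]; rintro ⟨_, h⟩; exact h g2
            · intro y hy
              rw [mem_filter] at hy ⊢
              exact ⟨mem_univ _, fun h => hy.2 (g3 y h)⟩
          omega
        · intro h
          obtain ⟨K, hK⟩ := F_orb hX s' X.x0
          obtain ⟨j, hj⟩ := inOrb_symm hK h
          rw [avoid_orb hsw hxP hxQ] at hj
          exact hx (inOrb_symm hM ⟨j, hj⟩)
  intro s x M hx hM
  exact main _ s le_rfl x M hx hM

/-- **Turning of the loops of the states `sgn`.** -/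
theorem turn_sgn (hX : X.Good p) (hc : X.Connected) {T0 : ℤ}
    (h0 : ∀ s, X.KT s X.x0 (X.ln s X.x0) = T0) (b : Bool) {x : ι × Dir} (hx : inc p x = true)
    (hk : ∀ k, (X.step (sgn p b))^[k] X.x0 ≠ x) :
    X.KT (sgn p b) x (X.ln (sgn p b) x) = 4 * sb b := by
  set s := sgn p b with hs
  have hO := orb_even hX s hx
  have key := all_turn_sgn hX hc T0 (fun s L hL => by
    have h1 := hL.unique (orb_even hX s hX.x0_in)
    rw [h1, KK_even hX s hX.x0_in, h0 s]) (sb b) s x (2 * X.ln s x) (by
      rintro ⟨j, hj⟩
      rcases Nat.even_or_odd' j with ⟨a, ha | ha⟩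
      · rw [ha, F_even hX s hX.x0_in] at hj
        exact hk a hj
      · rw [ha, F_odd hX s hX.x0_in] at hj
        have h2 : inc p (par s ((X.step s)^[a] X.x0)) = false := by
          rw [inc_par, inc_iter hX s hX.x0_in a]; rfl
        rw [hj, hx] at h2; cases h2) hO (fun i _ => by
      have h1 := tn_sgn (p := p) b (inc_inA (p := p) i)
      have h2 : X.dl p s (inA p i) = (inA p i).2.tn (s (inA p i).1) := by
        unfold Net.dl
        rw [if_pos (inc_inA i)]
      rw [h2, hs]; exact h1)
  rw [KK_even hX s hx] at key
  exact key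

/-! ### Sums over the cycles -/

section cycles

variable {C : Type*} [Fintype C] [DecidableEq C]

open Classical in
/-- sum over a cycle = sum over one period -/
lemma sum_cycle {M : Type*} [AddCommMonoid M] (f : Equiv.Perm C) (x : C) (g : C → M) :
    ∑ c ∈ univ.filter (fun c => cy f c = cy f x), g c =
      ∑ i ∈ range (Function.minimalPeriod f x), g (f^[i] x) := by
  have := prod_cycle (M := Multiplicative M) f x (univ.filter (fun c => cy f c = cy f x))
    (fun c => by
      rw [mem_filter, cy_eq]
      exact ⟨fun h => h.2.symm, fun h => ⟨mem_univ _, h.symm⟩⟩)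
    (fun c => Multiplicative.ofAdd (g c))
  exact this

open Classical in
lemma sum_cy {M : Type*} [AddCommMonoid M] (f : Equiv.Perm C) (g : C → M) :
    ∑ q : Cy f, ∑ c ∈ univ.filter (fun c => cy f c = q), g c = ∑ c, g c :=
  Finset.sum_fiberwise univ (cy f) g

end cycles

/-- sum over the incoming ends = sum over the tiles -/
lemma sum_in {M : Type*} [AddCommMonoid M] (p : ι → Bool) (g : ι × Dir → M) :
    ∑ x : In p, g x = ∑ i, (if p i then g (i, .W) + g (i, .E) else g (i, .N) + g (i, .S)) := by
  have h1 : ∑ x : In p, g x = ∑ x ∈ univ.filter (fun x => inc p x = true), g x :=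
    (Finset.sum_subtype (univ.filter (fun x => inc p x = true)) (by simp) g).symm
  rw [h1, Finset.sum_filter, Fintype.sum_prod_type]
  refine Finset.sum_congr rfl fun i _ => ?_
  have hu : (univ : Finset Dir) = {.W, .E, .N, .S} := by decide
  rw [hu, Finset.sum_insert (by decide), Finset.sum_insert (by decide),
    Finset.sum_insert (by decide), Finset.sum_singleton]
  unfold inc Dir.v
  cases p i <;> simp

/-- sum over the outgoing ends, in any state -/
lemma sum_par {M : Type*} [AddCommMonoid M] (p : ι → Bool) (s : ι → Bool) (g : ι × Dir → M) :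
    ∑ x : In p, g (par s x) =
      ∑ i, (if p i then g (i, .N) + g (i, .S) else g (i, .W) + g (i, .E)) := by
  rw [sum_in p (fun x => g (par s x))]
  refine Finset.sum_congr rfl fun i _ => ?_
  unfold par
  cases hp : p i <;> cases hs : s i <;> simp [Dir.mate, add_comm]

open Classical in
/-- **Euler's formula.** -/
theorem euler (hX : X.Good p) (hc : X.Connected) {T0 : ℤ}
    (h0 : ∀ s, X.KT s X.x0 (X.ln s X.x0) = T0) :
    Fintype.card (Cy (stepP hX (sgn p true))) + Fintype.card (Cy (stepP hX (sgn p false))) =
      Fintype.card ι + 2 := by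
  have key : ∀ b : Bool, (2 * (Fintype.card ι : ℤ)) * sb b +
      ∑ i, (if p i then X.t (i, .N) + X.t (i, .S) else X.t (i, .W) + X.t (i, .E)) =
      T0 + 4 * sb b * ((Fintype.card (Cy (stepP hX (sgn p b))) : ℤ) - 1) := by
    intro b
    set s := sgn p b with hs
    set f := stepP hX s with hf
    set c0 : In p := ⟨X.x0, hX.x0_in⟩ with hc0
    have h1 : ∑ x : In p, X.dt s x = (2 * (Fintype.card ι : ℤ)) * sb b +
        ∑ i, (if p i then X.t (i, .N) + X.t (i, .S) else X.t (i, .W) + X.t (i, .E)) := by
      rw [← sum_par p s X.t]
      have e1 : ∀ x : In p, X.dt s x = sb b + X.t (par s x) := by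
        intro x
        unfold Net.dt par
        rw [hs, tn_sgn b x.2]
      rw [Finset.sum_congr rfl (fun x _ => e1 x), Finset.sum_add_distrib]
      congr 1
      rw [sum_in p (fun _ => sb b)]
      simp only [ite_self]
      rw [Finset.sum_const, card_univ, nsmul_eq_mul]
      ring
    rw [← h1, ← sum_cy f (fun x => X.dt s x)]
    rw [← Finset.add_sum_erase univ _ (mem_univ (cy f c0))]
    have e2 : ∀ x : In p, ∑ c ∈ univ.filter (fun c => cy f c = cy f x), X.dt s c =
        X.KT s x (X.ln s x) := by
      intro x
      rw [sum_cycle f x (fun c => X.dt s c), ln_eq]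
      exact dsum_eq hX s x _
    rw [e2 c0, h0 s]
    congr 1
    have e3 : ∀ q ∈ univ.erase (cy f c0), ∑ c ∈ univ.filter (fun c => cy f c = q), X.dt s c =
        4 * sb b := by
      intro q hq
      obtain ⟨x, rfl⟩ : ∃ x, cy f x = q := ⟨q.out, cy_out f q⟩
      rw [e2 x]
      refine turn_sgn hX hc h0 b x.2 ?_
      intro k hk
      apply (mem_erase.1 hq).1
      rw [eq_comm, cy_eq]
      refine ⟨(k : ℤ), ?_⟩
      rw [zpow_natCast, ← Equiv.Perm.iterate_eq_pow]
      apply Subtype.ext
      rw [coe_iter]
      exact hk
    rw [Finset.sum_congr rfl e3, Finset.sum_const, card_erase_of_mem (mem_univ _), card_univ,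
      nsmul_eq_mul]
    have hpos : 0 < Fintype.card (Cy f) := Fintype.card_pos_iff.2 ⟨cy f c0⟩
    push_cast [Nat.cast_sub (show 1 ≤ Fintype.card (Cy f) from hpos)]
    ring
  have k1 := key true
  have k2 := key false
  unfold sb at k1 k2
  simp only [if_true, Bool.false_eq_true, if_false] at k1 k2
  omega

end Pool.Agent.H36.W
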