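import Pool.Agent.H36.W.RowS

set_option autoImplicit false
set_option linter.unusedSectionVars false
open Finset

/-!
# The frozen bound

In a row of tiles with the frozen weights (`a`, `b` on the two states, `a + b = 1`, `a b = 1`, of modulus
one) and the root on the strand of the last end, every weighted increment off the wires of the row vanishes
or has modulus one.
-/

namespace Pool.Agent.H36.W

open Pool.Agent.H75.Perc Pool.Agent.H75.TwoArm Pool.Agent.Q1 Pool.Agent.H81.G1 Pool.Agent.H99.NC

/-- the weights `a` (state `α`) and `b` (state `β`) of the labels of the tiles -/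
def Wts {N : ℕ} (q : ℤ × ℤ → ℂ) (lb : Fin N → ℤ × ℤ) (p : Fin N → Bool) (a b : ℂ) : Prop :=
  ∀ i, q (lb i) = if p i then b else a

section

variable {N : ℕ} {X : Env} {lb : Fin N → ℤ × ℤ} {p : Fin N → Bool}
  {cr : Fin N × Dir → ℤ × ℤ} {c : ℤ × ℤ}

lemma kp_cases {e : ℤ × ℤ} (b : Bool) (ω : Finset (ℤ × ℤ)) :
    ω ∪ kp (!b) {e} = ω ∨ ω ∪ kp (!b) {e} = insert e ω := by
  cases b
  · right; rw [union_comm]; rfl
  · left; exact union_empty ω

/-- in the configuration `ω ∪ kp (!b) D` the tiles `D` have the state `sgn p b` -/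
lemma stt_union {i : Fin N} {b : Bool} {D ω : Finset (ℤ × ℤ)} (h : lb i ∈ D) (hω : ω ⊆ X.E \ D) :
    stt lb p (ω ∪ kp (!b) D) i = sgn p b i := by
  rw [stt_eq]
  have h1 : lb i ∉ ω := fun h' => (mem_sdiff.1 (hω h')).2 h
  unfold kp
  cases b <;> simp [h, h1]

/-- ears with one passage off the root -/
lemma ear1 (T : Tiles X lb p cr) {b : Bool} {v : Fin N × Dir} (hv : inc p v = false)
    (h : wπ T v = par (sgn p b) v) (hc : ¬ OnW T v c) (h0 : ¬ OnW T v X.c0) (q : ℤ × ℤ → ℂ)
    (b' : Bool) : X.incW q c = (rem X b' {lb v.1}).incW q c := by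
  have he : lb v.1 ∈ X.E := T.mem _
  refine incW_drop he q c (fun ω hω => ?_) b'
  have hωE : ω ⊆ X.E := hω.trans sdiff_subset
  have hn : lb v.1 ∉ ω := fun h => by simpa using hω h
  have hη : ω ∪ kp (!b) {lb v.1} ⊆ X.E := by
    refine union_subset hωE ((kp_sub _ _).trans ?_)
    simpa using he
  have hs : stt lb p (ω ∪ kp (!b) {lb v.1}) v.1 = sgn p b v.1 :=
    stt_union (X := X) (mem_singleton_self _) hω
  have hx : inc p (par (sgn p b) v) = true := by rw [inc_par, hv]; rfl
  exact tog_eq hωE he hn (kp_cases b ω) (x := cr (par (sgn p b) v)) (lab_cr T hx)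
    (loop1 T hη hv hs h h0) (loop1 T hη hv hs h hc)

/-- the ear of the root with one passage -/
lemma ear1r (T : Tiles X lb p cr) {b : Bool} {v : Fin N × Dir} (hv : inc p v = false)
    (h : wπ T v = par (sgn p b) v) (hc : ¬ OnW T v c) (h0 : OnW T v X.c0) (q : ℤ × ℤ → ℂ) :
    X.incW q c = (if b then q (lb v.1) else 1 - q (lb v.1)) *
      (rem X b {lb v.1}).incW q c := by
  have he : lb v.1 ∈ X.E := T.mem _
  refine incW_root he q c b (fun ω hω => ?_)
  have hωE : ω ⊆ X.E := hω.trans sdiff_subset
  have hη : ω ∪ kp (!b) {lb v.1} ⊆ X.E := by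
    refine union_subset hωE ((kp_sub _ _).trans ?_)
    simpa using he
  have hs : stt lb p (ω ∪ kp (!b) {lb v.1}) v.1 = sgn p b v.1 :=
    stt_union (X := X) (mem_singleton_self _) hω
  have hx : inc p (par (sgn p b) v) = true := by rw [inc_par, hv]; rfl
  refine incO_loop (x := cr (par (sgn p b) v)) ?_ (loop1 T hη hv hs h hc)
  have h1 : X.f (ω ∪ kp (!b) {lb v.1}) (cr (par (sgn p b) v)) = cr v := by
    rw [f_cr T _ hx, par_congr (x := par (sgn p b) v) (s' := sgn p b) hs, par_par]
  exact inOrb_trans ⟨1, h1⟩ ((onW_pt1 T hv h0).inOrb hη (out_mem_S T hv))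

lemma sgn_weights {a b' : ℂ} (hab : a * b' = 1) (hs : a + b' = 1) {q : ℤ × ℤ → ℂ}
    (hq : Wts q lb p a b') {i j : Fin N} (hij : p j = !p i) :
    q (lb i) * q (lb j) = 1 ∧ (1 - q (lb i)) * (1 - q (lb j)) = 1 := by
  rw [hq i, hq j, hij]
  have e1 : 1 - a = b' := by rw [← hs]; ring
  have e2 : 1 - b' = a := by rw [← hs]; ring
  cases hp : p i
  · simp only [Bool.not_false, if_true, Bool.false_eq_true, if_false, e1, e2]
    exact ⟨hab, by rw [mul_comm]; exact hab⟩
  · simp only [Bool.not_true, if_true, Bool.false_eq_true, if_false, e1, e2]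
    exact ⟨by rw [mul_comm]; exact hab, hab⟩

/-- ears with two passages -/
lemma ear2 (T : Tiles X lb p cr) {b : Bool} {v : Fin N × Dir} (hv : inc p v = false)
    (h : wπ T (par (sgn p b) (wπ T v)) = par (sgn p b) v)
    (hne : (wπ T v).1 ≠ v.1)
    (hc : ¬ OnW T v c) (hc' : ¬ OnW T (par (sgn p b) (wπ T v)) c)
    (h0 : ¬ OnW T v X.c0) (h0' : ¬ OnW T (par (sgn p b) (wπ T v)) X.c0) (q : ℤ × ℤ → ℂ)
    (hq : q (lb v.1) * q (lb (wπ T v).1) = 1)
    (hq' : (1 - q (lb v.1)) * (1 - q (lb (wπ T v).1)) = 1) :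
    X.incW q c = (rem X b {lb v.1, lb (wπ T v).1}).incW q c := by
  set y := wπ T v with hy
  have he : lb v.1 ∈ X.E := T.mem _
  have he' : lb y.1 ∈ X.E := T.mem _
  have hnl : lb v.1 ≠ lb y.1 := fun h => hne (T.inj h).symm
  refine incW_two he he' hnl q c b hq hq' (fun ω hω => ?_)
  have hωE : ω ⊆ X.E := hω.trans sdiff_subset
  have hn : lb v.1 ∉ ω := fun h => by have := mem_sdiff.1 (hω h); simp at this
  have hn' : lb y.1 ∉ ω := fun h => by have := mem_sdiff.1 (hω h); simp at this
  have hD : ({lb v.1, lb y.1} : Finset (ℤ × ℤ)) ⊆ X.E := by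
    intro x hx; rw [mem_insert, mem_singleton] at hx
    rcases hx with rfl | rfl
    · exact he
    · exact he'
  have hη : ω ∪ kp (!b) {lb v.1, lb y.1} ⊆ X.E := union_subset hωE ((kp_sub _ _).trans hD)
  have hs : stt lb p (ω ∪ kp (!b) {lb v.1, lb y.1}) v.1 = sgn p b v.1 :=
    stt_union (X := X) (mem_insert_self _ _) hω
  have hs' : stt lb p (ω ∪ kp (!b) {lb v.1, lb y.1}) y.1 = sgn p b y.1 :=
    stt_union (X := X) (mem_insert_of_mem (mem_singleton_self _)) hω
  have hx : inc p (par (sgn p b) v) = true := by rw [inc_par, hv]; rfl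
  have hyi : inc p y = true := by rw [hy, inc_wπ, hv]; rfl
  have hlx : lab (cr (par (sgn p b) v)) = lb v.1 := lab_cr T hx
  obtain ⟨l1, l2⟩ := loop2 T hη hv hs hs' h hc hc'
  obtain ⟨l3, l4⟩ := loop2 T hη hv hs hs' h h0 h0'
  cases b
  · have e1 : ω ∪ kp (!false) {lb v.1, lb y.1} = insert (lb v.1) (insert (lb y.1) ω) := by
      show ω ∪ {lb v.1, lb y.1} = _
      ext z; simp only [mem_insert, mem_union, mem_singleton]; tauto
    have e2 : ω ∪ kp (!false) {lb v.1, lb y.1} = insert (lb y.1) (insert (lb v.1) ω) := by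
      rw [e1]; ext z; simp only [mem_insert]; tauto
    constructor
    · rw [e2] at l2 l4 ⊢
      exact (tog_eq (insert_subset he hωE) he' (by
        rw [mem_insert, not_or]; exact ⟨hnl.symm, hn'⟩) (Or.inr rfl) (lab_cr T hyi) l4 l2).symm
    · rw [e1] at l1 l3 ⊢
      exact (tog_eq (insert_subset he' hωE) he (by
        rw [mem_insert, not_or]; exact ⟨hnl, hn⟩) (Or.inr rfl) hlx l3 l1).symm
  · have e1 : ω ∪ kp (!true) {lb v.1, lb y.1} = ω := union_empty ω
    rw [e1] at l1 l2 l3 l4 ⊢
    exact ⟨tog_eq hωE he hn (Or.inl rfl) hlx l3 l1,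
      tog_eq hωE he' hn' (Or.inl rfl) (lab_cr T hyi) l4 l2⟩

/-- the new path after the removal of an ear with two passages -/
lemma ear2_path (T : Tiles X lb p cr) {b : Bool} {v : Fin N × Dir} (hv : inc p v = false)
    {D : Finset (ℤ × ℤ)} (hD : lb v.1 ∈ D) (hD' : lb (wπ T v).1 ∈ D) {x2 w2 : Fin N × Dir}
    (h1 : par (sgn p (!b)) x2 = v) (h2 : par (sgn p (!b)) (wπ T v) = w2)
    (hc : ¬ OnW T v c) :
    Pt (rem X b D) (cr x2) (cr w2) ∧
      (cr x2 ≠ c → cr w2 ≠ c → PtA (rem X b D) c (cr x2) (cr w2)) := by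
  have hx : inc p x2 = true := by
    have := inc_par p (sgn p (!b)) x2
    rw [h1, hv] at this
    simpa using this.symm
  have hx1 : x2.1 = v.1 := by rw [← h1]; rfl
  have hy : inc p (wπ T v) = true := by rw [inc_wπ, hv]; rfl
  have s1 : stt lb p (kp b D) x2.1 = sgn p (!b) x2.1 := stt_kp (by rw [hx1]; exact hD)
  have s2 : stt lb p (kp b D) (wπ T v).1 = sgn p (!b) (wπ T v).1 := stt_kp hD'
  have n1 : lb x2.1 ∉ X.E \ D := fun h => (mem_sdiff.1 h).2 (by rw [hx1]; exact hD)
  have n2 : lb (wπ T v).1 ∉ X.E \ D := fun h => (mem_sdiff.1 h).2 hD'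
  obtain ⟨z1, z2⟩ := not_onW_ne T hv hc
  constructor
  · have a1 := step_frz' T (E' := X.E \ D) (ω1 := kp b D) (s := sgn p (!b)) hx n1 s1
    have a2 := (wire_ptA T hv hc).pt.frz (E' := X.E \ D) (ω1 := kp b D)
    have a3 := step_frz' T (E' := X.E \ D) (ω1 := kp b D) (s := sgn p (!b)) hy n2 s2
    rw [h1] at a1
    rw [h2] at a3
    exact (a1.trans a2).trans a3
  · intro c1 c2
    have a1 := step_frz (z := c) T (E' := X.E \ D) (ω1 := kp b D) (s := sgn p (!b)) hx n1 s1 c1
      (by rw [h1]; exact z1)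
    have a2 := (wire_ptA T hv hc).frz (E' := X.E \ D) (ω1 := kp b D)
    have a3 := step_frz (z := c) T (E' := X.E \ D) (ω1 := kp b D) (s := sgn p (!b)) hy n2 s2 z2
      (by rw [h2]; exact c2)
    rw [h1] at a1
    rw [h2] at a3
    exact (a1.trans a2).trans a3

end

/-- value of a unimodular weight -/
lemma wts_norm {N : ℕ} {lb : Fin N → ℤ × ℤ} {p : Fin N → Bool} {a b' : ℂ} (ha : ‖a‖ = 1)
    (hb : ‖b'‖ = 1) (hs : a + b' = 1) {q : ℤ × ℤ → ℂ} (hq : Wts q lb p a b') (i : Fin N)
    (b : Bool) : ‖if b then q (lb i) else 1 - q (lb i)‖ = 1 := by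
  rw [hq i]
  have e1 : 1 - a = b' := by rw [← hs]; ring
  have e2 : 1 - b' = a := by rw [← hs]; ring
  cases b <;> cases p i <;> simp [e1, e2, ha, hb]

/-- **The frozen bound.** -/
theorem frozen_row {a b' : ℂ} (ha : ‖a‖ = 1) (hb : ‖b'‖ = 1) (hs : a + b' = 1)
    (hab : a * b' = 1) (q : ℤ × ℤ → ℂ) : ∀ (N : ℕ) (X : Env) (lb : Fin N → ℤ × ℤ)
    (p : Fin N → Bool) (cr : Fin N × Dir → ℤ × ℤ) (c : ℤ × ℤ), RowS N X lb p cr c →
    Wts q lb p a b' → X.incW q c = 0 ∨ ‖X.incW q c‖ = 1 := by
  intro N
  induction N using Nat.strong_induction_on with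
  | _ N ih =>
  intro X lb p cr c R hq
  rcases Nat.eq_zero_or_pos N with h0 | h0
  · -- no random label
    subst h0
    have hE : X.E = ∅ := by
      apply Finset.eq_empty_of_forall_notMem
      intro e he
      obtain ⟨i, -⟩ := R.tiles.surj e he
      exact i.elim0
    have h1 : X.incW q c = X.incO ∅ c := by
      unfold Env.incW; rw [hE, Ec_empty]
    rw [h1]
    by_cases h : ∃ i < X.len ∅, X.z ∅ i = c
    · right
      obtain ⟨i, hi, h⟩ := h
      rw [Env.incO_of (empty_subset _) hi h, ph_norm]
    · left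
      push Not at h
      exact Env.incO_zero h
  obtain ⟨M, rfl⟩ : ∃ M, N = M + 1 := ⟨N - 1, by omega⟩
  have T := R.tiles
  have hl : ((Fin.last M : Fin (M + 1)) : ℕ) + 1 = M + 1 := by simp
  obtain ⟨r, hr, hr0, hrl⟩ := R.rootw (Fin.last M) hl
  -- the outgoing end of the wire of `c`
  obtain ⟨u, hu⟩ : ∃ u : Fin (M + 1) × Dir, ∀ v, inc p v = false → v ≠ u → ¬ OnW R.tiles v c := by
    by_cases h : ∃ u, inc p u = false ∧ OnW R.tiles u c
    · obtain ⟨u, hu1, hu2⟩ := h
      exact ⟨u, fun v hv hne h => hne (onW_unique R.tiles hv hu1 h hu2)⟩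
    · exact ⟨r, fun v hv _ h' => h ⟨v, hv, h'⟩⟩
  obtain ⟨b, v, hvu, hv, hvl, hear⟩ := R.ear (Fin.last M) hl u
  have hvc := hu v hv hvu
  have hroot : ∀ w, inc p w = false → w ≠ r → ¬ OnW R.tiles w X.c0 := fun w hw hne h =>
    hne (onW_unique R.tiles hw hr h hr0)
  rcases hear with h1 | ⟨hL, h2⟩
  · -- one passage
    by_cases hvr : v = r
    · -- the root
      have h0' : OnW R.tiles v X.c0 := by rw [hvr]; exact hr0
      have key := ear1r R.tiles hv h1 hvc h0' q
      have hlast : v = (Fin.last M, Dir.E) ∨ wπ R.tiles v = (Fin.last M, .E) := by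
        rw [hvr]; exact hrl
      have hv1 : v.1 = Fin.last M := by
        rcases hlast with h | h
        · rw [h]
        · have : (wπ R.tiles v).1 = v.1 := by rw [h1]; rfl
          rw [← this, h]
      rw [hv1] at key
      have hD : lb (Fin.last M) ∉ X.E \ {lb (Fin.last M)} := by simp
      have hst : ∀ d : Dir, stt lb p (kp b {lb (Fin.last M)}) ((Fin.last M, d) :
          Fin (M + 1) × Dir).1 = sgn p (!b) ((Fin.last M, d) : Fin (M + 1) × Dir).1 :=
        fun d => stt_kp (mem_singleton_self _)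
      have R' := R.last b (fun hp => by
        -- the root enters at `x` and leaves at the end `W`
        have hE : inc p (Fin.last M, Dir.E) = false := by rw [inc_h _ _ (Or.inr rfl), hp]
        have hvE : v = (Fin.last M, Dir.E) := by
          rcases hlast with h | h
          · exact h
          · exfalso
            have := inc_wπ R.tiles v
            rw [h, hE, hv] at this; cases this
        have hx : inc p (par (sgn p b) v) = true := by rw [inc_par, hv]; rfl
        have a1 := (onW_pt2 R.tiles hv h0').frz (E' := X.E \ {lb (Fin.last M)})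
          (ω1 := kp b {lb (Fin.last M)})
        have hx1 : (par (sgn p b) v).1 = Fin.last M := by rw [hvE]; rfl
        have a2 := step_frz' R.tiles (E' := X.E \ {lb (Fin.last M)})
          (ω1 := kp b {lb (Fin.last M)}) (s := sgn p (!b)) hx (by rw [hx1]; exact hD)
          (by rw [hx1]; exact hst .E)
        rw [h1] at a1
        have e : par (sgn p (!b)) (par (sgn p b) v) = (Fin.last M, Dir.W) := by
          rw [hvE, par_opp1]; rfl
        rw [e] at a2
        exact a1.trans a2) (fun hp => by
        have hE : inc p (Fin.last M, Dir.E) = true := by rw [inc_h _ _ (Or.inr rfl), hp]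
        have hWi : inc p (Fin.last M, Dir.W) = true := by rw [inc_h _ _ (Or.inl rfl), hp]
        have hvE : wπ R.tiles v = (Fin.last M, Dir.E) := by
          rcases hlast with h | h
          · exfalso; rw [h, hE] at hv; cases hv
          · exact h
        have e : par (sgn p (!b)) (Fin.last M, Dir.W) = v := by
          have e1 : v = par (sgn p b) (Fin.last M, Dir.E) := by
            rw [← hvE, h1, par_par]
          rw [e1]
          exact par_opp2 p b (Fin.last M) .E
        have a2 := step_frz' R.tiles (E' := X.E \ {lb (Fin.last M)})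
          (ω1 := kp b {lb (Fin.last M)}) (s := sgn p (!b)) hWi hD (hst .W)
        rw [e] at a2
        exact a2.trans (onW_pt1 R.tiles hv h0').frz)
      have := ih M (Nat.lt_succ_self M) _ _ _ _ c R' (fun i => hq _)
      rw [key, norm_mul, wts_norm ha hb hs hq, one_mul]
      rcases this with h | h
      · left; rw [h, mul_zero]
      · right; exact h
    · -- the first tile
      have h0' := hroot v hv hvr
      have key := ear1 R.tiles hv h1 hvc h0' q b
      have hv1 : v.1 = 0 := by
        obtain ⟨i, d⟩ := v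
        have hx : ¬ Lin (par (sgn p b) (i, d)) := by
          intro h
          apply hvl
          have hrow : (net R.tiles (hr0.meets R.tiles hr) (i, d)).IsRow := fun i j h => R.wire i j h
          have h3 := h.pi hrow (wπ_wπ R.tiles)
          have h4 : (net R.tiles (hr0.meets R.tiles hr) (i, d)).π (par (sgn p b) (i, d)) =
              wπ R.tiles (par (sgn p b) (i, d)) := rfl
          rw [h4, ← h1, wπ_wπ] at h3
          exact h3
        have hne : ¬ ((i, d) = (Fin.last M, Dir.E) ∨ par (sgn p b) (i, d) = (Fin.last M, .E)) := by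
          intro h
          apply hvr
          exact root_eq R.tiles hr hv hrl (by rw [h1]; exact h)
        rw [not_or] at hne
        show i = 0
        have hpar : ∀ d', par (sgn p b) (i, d) = (i, d') → ¬ Lin (i, d') := fun d' h => by
          rw [← h]; exact hx
        have hW : d = .W ∨ d = .E ∨ par (sgn p b) (i, d) = (i, .W) ∨
            par (sgn p b) (i, d) = (i, .E) := by
          unfold par sgn
          cases p i <;> cases b <;> cases d <;> simp [Dir.mate]
        have hlastE : (i = Fin.last M → False) → ¬ Lin (i, Dir.E) → False := by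
          intro h3 h4
          apply h3
          apply Fin.ext
          by_contra h5
          apply h4
          left
          refine ⟨rfl, ?_⟩
          have := i.2
          simp only [Fin.val_last] at h5
          show (i : ℕ) + 1 < M + 1
          omega
        have hzW : ¬ Lin (i, Dir.W) → i = 0 := by
          intro h4
          apply Fin.ext
          by_contra h5
          apply h4
          right
          exact ⟨rfl, Nat.pos_of_ne_zero h5⟩
        rcases hW with h | h | h | h
        · subst h; exact hzW hvl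
        · subst h
          exact (hlastE (fun e => hne.1 (by rw [e])) hvl).elim
        · exact hzW (hpar _ h)
        · exact (hlastE (fun e => hne.2 (by rw [h, e])) (hpar _ h)).elim
      rw [hv1] at key
      have := ih M (Nat.lt_succ_self M) _ _ _ _ c (R.first b) (fun i => hq _)
      rwa [key]
  · -- two passages
    set y := wπ R.tiles v with hy
    set w := par (sgn p b) y with hw
    have hyi : inc p y = true := by rw [hy, inc_wπ, hv]; rfl
    have hwo : inc p w = false := by rw [hw, inc_par, hyi]; rfl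
    have hrow : (net R.tiles (hr0.meets R.tiles hr) v).IsRow := fun i j h => R.wire i j h
    have hcases := hL.cases hrow (wπ_wπ R.tiles)
    have hLp : Lin (wπ R.tiles w) := hL.pi hrow (wπ_wπ R.tiles)
    have hπ : (net R.tiles (hr0.meets R.tiles hr) v).π w = wπ R.tiles w := rfl
    rw [hπ, h2] at hcases
    have hw1 : w.1 = y.1 := rfl
    have hx1 : (par (sgn p b) v).1 = v.1 := rfl
    rw [hw1, hx1] at hcases
    -- neither `v` nor `w` is the end of the root wire
    have hwr : w ≠ r := by
      rintro rfl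
      rcases hrl with h | h
      · rw [h] at hL
        rcases hL with ⟨-, h3⟩ | ⟨h3, -⟩
        · simp at h3
        · cases h3
      · rw [h] at hLp
        rcases hLp with ⟨-, h3⟩ | ⟨h3, -⟩
        · simp at h3
        · cases h3
    have hLx : Lin (par (sgn p b) v) := by rw [← h2]; exact hLp
    have hvr : v ≠ r := by
      rintro rfl
      rcases hrl with h | h
      · -- `v = (last, E)`, then its partner is vertical
        rcases hLx with ⟨h3, -⟩ | ⟨h3, -⟩ <;> rw [h] at h3 <;>
          revert h3 <;> unfold par sgn <;> cases p (Fin.last M) <;> cases b <;>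
          simp [Dir.mate]
      · -- `y = (last, E)`
        have h4 : y = (Fin.last M, Dir.E) := h
        have hL' := hL
        rw [hw, h4] at hL'
        rcases hL' with ⟨h3, -⟩ | ⟨h3, -⟩ <;>
          revert h3 <;> unfold par sgn <;> cases p (Fin.last M) <;> cases b <;>
          simp [Dir.mate]
    have hvc0 := hroot v hv hvr
    have hwc0 := hroot w hwo hwr
    have hwc : ¬ OnW R.tiles w c := R.lin_off hL hwo
    have hne : y.1 ≠ v.1 := by
      intro h3
      rcases hcases with ⟨-, -, h4⟩ | ⟨-, -, h4⟩ <;> rw [h3] at h4 <;> omega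
    have hM : 1 ≤ M := by
      have b1 := y.1.2
      have b2 := v.1.2
      have : (y.1 : ℕ) ≠ v.1 := fun h => hne (Fin.ext h)
      omega
    obtain ⟨M, rfl⟩ : ∃ K, M = K + 1 := ⟨M - 1, by omega⟩
    have hadj : p y.1 = !p v.1 := by
      rcases hcases with ⟨-, -, h4⟩ | ⟨-, -, h4⟩
      · have := R.alt y.1 v.1 h4
        rw [this]; simp
      · exact R.alt v.1 y.1 h4.symm
    obtain ⟨hqa, hqb⟩ := sgn_weights hab hs hq hadj
    have key := ear2 R.tiles hv h2 hne hvc hwc hvc0 hwc0 q hqa hqb
    rcases hcases with ⟨d1, d2, h4⟩ | ⟨d1, d2, h4⟩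
    · -- `w = (k, E)`, `x = (k + 1, W)`, `k = y.1`
      have hxv : par (sgn p b) v = (v.1, Dir.W) := Prod.ext rfl d2
      have hwy : w = (y.1, Dir.E) := Prod.ext rfl d1
      have e1 : par (sgn p (!b)) (v.1, Dir.E) = v := by
        have := par_opp2 p b v.1 .W
        rw [show opp .W = .E from rfl] at this
        rw [this, ← hxv, par_par]
      have e2 : par (sgn p (!b)) y = (y.1, Dir.W) := by
        have := par_opp1 p b y.1 .E
        rw [← hwy, hw, par_par] at this
        rw [this]; rfl
      have hpy : p y.1 = false := by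
        have := hwo
        rwa [hwy, inc_h _ _ (Or.inr rfl)] at this
      have hDc : ({lb v.1, lb y.1} : Finset (ℤ × ℤ)) = {lb y.1, lb v.1} := Finset.pair_comm _ _
      rw [← hy, hDc] at key
      have hpath := ear2_path R.tiles (c := c) hv (D := {lb y.1, lb v.1}) (b := b)
        (x2 := (v.1, .E)) (w2 := (y.1, .W)) (by simp) (by simp [← hy]) e1 e2 hvc
      have R' := R.two b y.1 v.1 h4 (fun h => by rw [hpy] at h; cases h)
        (fun _ => ⟨hpath.1, fun c1 c2 => hpath.2 c2 c1⟩)
      have := ih M (by omega) _ _ _ _ c R' (fun i => hq _)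
      rwa [key]
    · -- `w = (k + 1, W)`, `x = (k, E)`, `k = v.1`
      have hxv : par (sgn p b) v = (v.1, Dir.E) := Prod.ext rfl d2
      have hwy : w = (y.1, Dir.W) := Prod.ext rfl d1
      have e1 : par (sgn p (!b)) (v.1, Dir.W) = v := by
        have := par_opp2 p b v.1 .E
        rw [show opp .E = .W from rfl] at this
        rw [this, ← hxv, par_par]
      have e2 : par (sgn p (!b)) y = (y.1, Dir.E) := by
        have := par_opp1 p b y.1 .W
        rw [← hwy, hw, par_par] at this
        rw [this]; rfl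
      have hpy : p y.1 = false := by
        have := hwo
        rwa [hwy, inc_h _ _ (Or.inl rfl)] at this
      have hpv : p v.1 = true := by rw [hpy] at hadj; simpa using hadj.symm
      rw [← hy] at key
      have hpath := ear2_path R.tiles (c := c) hv (D := {lb v.1, lb y.1}) (b := b)
        (x2 := (v.1, .W)) (w2 := (y.1, .E)) (by simp) (by simp [← hy]) e1 e2 hvc
      have R' := R.two b v.1 y.1 h4.symm (fun _ => ⟨hpath.1, hpath.2⟩)
        (fun h => by rw [hpv] at h; cases h)
      have := ih M (by omega) _ _ _ _ c R' (fun i => hq _)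
      rwa [key]

theorem frozen_row_le {a b' : ℂ} (ha : ‖a‖ = 1) (hb : ‖b'‖ = 1) (hs : a + b' = 1)
    (hab : a * b' = 1) (q : ℤ × ℤ → ℂ) {N : ℕ} {X : Env} {lb : Fin N → ℤ × ℤ}
    {p : Fin N → Bool} {cr : Fin N × Dir → ℤ × ℤ} {c : ℤ × ℤ} (R : RowS N X lb p cr c)
    (hq : Wts q lb p a b') : ‖X.incW q c‖ ≤ 1 := by
  rcases frozen_row ha hb hs hab q N X lb p cr c R hq with h | h
  · rw [h]; simp
  · exact h.le

end Pool.Agent.H36.W
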