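import Pool.Agent.H36.W.FB
import Pool.Agent.H81.G1.Frame
import Pool.Agent.H30.Mid.Row

set_option autoImplicit false
set_option linter.unusedSectionVars false
open Finset

/-!
# The frozen bound for the rows of a window

Rows in the four frames of `H81.G1.Frame` (`crf lb k`) and the rows `RS N x0 y0` of `H30.Mid.Row`; all
other random labels have arbitrary states, or probabilities.
-/

namespace Pool.Agent.H36.W

open Pool.Agent.H75.Perc Pool.Agent.H75.TwoArm Pool.Agent.Q1 Pool.Agent.H81.G1 Pool.Agent.H99.NC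
open Pool.Agent.H30.Mid (HasRow RS rl rp rcr mem_RS rtiles frz_E rl_inj)

/-- a row whose consecutive tiles have a common corner -/
theorem RowS.mk0 {N : ℕ} {X : Env} {lb : Fin N → ℤ × ℤ} {p : Fin N → Bool}
    {cr : Fin N × Dir → ℤ × ℤ} {c : ℤ × ℤ} (T : Tiles X lb p cr)
    (alt : ∀ i j : Fin N, (j : ℕ) = i + 1 → p j = !p i)
    (hEW : ∀ i j : Fin N, (j : ℕ) = i + 1 → cr (i, .E) = cr (j, .W))
    (hc : ∀ i : Fin N, (i : ℕ) + 1 < N → cr (i, .E) ≠ c)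
    (root0 : ∀ i : Fin N, (i : ℕ) + 1 = N → p i = false → Pt X (cr (i, .E)) X.c0)
    (root1 : ∀ i : Fin N, (i : ℕ) + 1 = N → p i = true → Pt X X.c0 (cr (i, .E))) :
    RowS N X lb p cr c := by
  have key : ∀ i j : Fin N, (j : ℕ) = i + 1 → ∀ a b, (a = cr (i, .E) ∧ b = cr (j, .W)) ∨
      (b = cr (i, .E) ∧ a = cr (j, .W)) → PtA X c a b := by
    intro i j h a b hab
    have h1 := hEW i j h
    have h2 : a = b := by
      rcases hab with ⟨r1, r2⟩ | ⟨r1, r2⟩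
      · rw [r1, r2, h1]
      · rw [r1, r2, h1]
    have h3 : a ≠ c := by
      have := hc i (by have := j.2; omega)
      rcases hab with ⟨r1, r2⟩ | ⟨r1, r2⟩
      · rw [r1]; exact this
      · rw [h2, r1]; exact this
    refine ⟨0, ⟨h2, fun i hi => absurd hi (Nat.not_lt_zero i)⟩, fun k hk => ?_⟩
    obtain rfl : k = 0 := by omega
    exact h3
  exact ⟨T, alt, fun i j h _ => key i j h _ _ (Or.inl ⟨rfl, rfl⟩),
    fun i j h _ => key i j h _ _ (Or.inr ⟨rfl, rfl⟩), root0, root1⟩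

/-- the weighted increment is the mean of the weighted increments of the row -/
lemma incW_mean {X : Env} {E1 : Finset (ℤ × ℤ)} (h : E1 ⊆ X.E) (q : ℤ × ℤ → ℂ) (c : ℤ × ℤ) :
    X.incW q c = Ec q (X.E \ E1) (fun ω => (X.freeze E1 ω).incW q c) := by
  unfold Env.incW
  rw [Ec_split q h, Ec_swap]
  refine Ec_congr fun ω hω => ?_
  rw [Env.freeze_E, inter_eq_right.2 h]
  refine Ec_congr fun ρ hρ => ?_
  rw [Env.freeze_incO (by rwa [inter_eq_right.2 h])]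
  congr 2
  exact (inter_eq_left.2 hω).symm

/-- for a fixed state of the labels off the row -/
lemma incW_freeze {X : Env} {E1 ω : Finset (ℤ × ℤ)} (h : E1 ⊆ X.E) (hω : ω ⊆ X.E \ E1)
    (q : ℤ × ℤ → ℂ) (c : ℤ × ℤ) :
    (X.freeze E1 ω).incW q c = Ec q E1 (fun ρ => X.incO (ρ ∪ ω) c) := by
  unfold Env.incW
  rw [Env.freeze_E, inter_eq_right.2 h]
  refine Ec_congr fun ρ hρ => ?_
  rw [Env.freeze_incO (by rwa [inter_eq_right.2 h])]
  congr 2
  exact inter_eq_left.2 hω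

/-- a mean of numbers of modulus at most one -/
lemma mean_le {E : Finset (ℤ × ℤ)} {q : ℤ × ℤ → ℂ} {q' : ℤ × ℤ → ℝ} (h0 : ∀ e, 0 ≤ q' e)
    (h1 : ∀ e, q' e ≤ 1) (hq : ∀ e ∈ E, q e = q' e) {F : Finset (ℤ × ℤ) → ℂ} {M : ℝ}
    (hF : ∀ ω, ω ⊆ E → ‖F ω‖ ≤ M) : ‖Ec q E F‖ ≤ M := by
  rw [Ec_congr_q (q' := fun e => (q' e : ℂ)) hq]
  have := Ec_norm (q := q') (fun e => ⟨h0 e, h1 e⟩) (E := E) (F := F) (g := fun _ => M) hF
  refine this.trans ?_
  rw [Ex_const]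

section frame

variable {N : ℕ} {X : Env} {lb : Fin N → ℤ × ℤ} {c : ℤ × ℤ}

/-- **rows in the frame `k`**: the tile `j = i + 1` is the neighbour of `i` in the direction `dv k`; the root is
on the strand of the corner at the end `E` of the last tile -/
theorem rowS_frame (k : Fin 4) (hinj : Function.Injective lb) (hmem : ∀ i, lb i ∈ X.E)
    (hrow : ∀ i j : Fin N, (j : ℕ) = i + 1 → lb j = ((lb i).1 + (dv k).1, (lb i).2 + (dv k).2))
    (hc : ∀ i : Fin N, (i : ℕ) + 1 < N → crf lb k (i, .E) ≠ c)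
    (root0 : ∀ i : Fin N, (i : ℕ) + 1 = N → pf k (lb i) = false →
      Pt X (crf lb k (i, .E)) X.c0)
    (root1 : ∀ i : Fin N, (i : ℕ) + 1 = N → pf k (lb i) = true →
      Pt X X.c0 (crf lb k (i, .E))) (ω : Finset (ℤ × ℤ)) :
    RowS N (X.freeze (univ.image lb) ω) lb (fun i => pf k (lb i)) (crf lb k) c := by
  refine RowS.mk0 (tiles_frame _ k hinj (fun i => ?_) (fun e he => ?_)) ?_ ?_ hc
    (fun i h hp => (root0 i h hp).frz) (fun i h hp => Pt.frz (root1 i h hp))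
  · rw [Env.freeze_E, mem_inter]
    exact ⟨hmem i, mem_image_of_mem _ (mem_univ _)⟩
  · rw [Env.freeze_E, mem_inter] at he
    obtain ⟨i, -, hi⟩ := mem_image.1 he.2
    exact ⟨i, hi⟩
  · intro i j h
    show pf k (lb j) = !pf k (lb i)
    rw [hrow i j h, pf_dv]
  · intro i j h
    unfold crf
    simp only
    rw [hrow i j h, off_row]
    ext <;> simp only <;> ring

/-- **The frozen bound in the frame `k`**, for every state of the labels off the row -/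
theorem frozen_frame {a b : ℂ} (ha : ‖a‖ = 1) (hb : ‖b‖ = 1) (hs : a + b = 1)
    (hab : a * b = 1) {q : ℤ × ℤ → ℂ} (k : Fin 4) (hinj : Function.Injective lb)
    (hmem : ∀ i, lb i ∈ X.E)
    (hrow : ∀ i j : Fin N, (j : ℕ) = i + 1 → lb j = ((lb i).1 + (dv k).1, (lb i).2 + (dv k).2))
    (hc : ∀ i : Fin N, (i : ℕ) + 1 < N → crf lb k (i, .E) ≠ c)
    (root0 : ∀ i : Fin N, (i : ℕ) + 1 = N → pf k (lb i) = false →
      Pt X (crf lb k (i, .E)) X.c0)
    (root1 : ∀ i : Fin N, (i : ℕ) + 1 = N → pf k (lb i) = true →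
      Pt X X.c0 (crf lb k (i, .E)))
    (hq : ∀ i, q (lb i) = if pf k (lb i) then b else a) {ω : Finset (ℤ × ℤ)}
    (hω : ω ⊆ X.E \ univ.image lb) :
    ‖Ec q (univ.image lb) (fun ρ => X.incO (ρ ∪ ω) c)‖ ≤ 1 := by
  have hsub : univ.image lb ⊆ X.E := by
    intro e he; obtain ⟨i, -, rfl⟩ := mem_image.1 he; exact hmem i
  rw [← incW_freeze hsub hω]
  exact frozen_row_le ha hb hs hab q (rowS_frame k hinj hmem hrow hc root0 root1 ω) hq

/-- **The frozen bound in the frame `k`**, mean over the labels off the row -/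
theorem frozen_frame_mean {a b : ℂ} (ha : ‖a‖ = 1) (hb : ‖b‖ = 1) (hs : a + b = 1)
    (hab : a * b = 1) {q : ℤ × ℤ → ℂ} {q' : ℤ × ℤ → ℝ} (h0 : ∀ e, 0 ≤ q' e)
    (h1 : ∀ e, q' e ≤ 1) (hqq : ∀ e ∈ X.E \ univ.image lb, q e = q' e)
    (k : Fin 4) (hinj : Function.Injective lb)
    (hmem : ∀ i, lb i ∈ X.E)
    (hrow : ∀ i j : Fin N, (j : ℕ) = i + 1 → lb j = ((lb i).1 + (dv k).1, (lb i).2 + (dv k).2))
    (hc : ∀ i : Fin N, (i : ℕ) + 1 < N → crf lb k (i, .E) ≠ c)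
    (root0 : ∀ i : Fin N, (i : ℕ) + 1 = N → pf k (lb i) = false →
      Pt X (crf lb k (i, .E)) X.c0)
    (root1 : ∀ i : Fin N, (i : ℕ) + 1 = N → pf k (lb i) = true →
      Pt X X.c0 (crf lb k (i, .E)))
    (hq : ∀ i, q (lb i) = if pf k (lb i) then b else a) : ‖X.incW q c‖ ≤ 1 := by
  have hsub : univ.image lb ⊆ X.E := by
    intro e he; obtain ⟨i, -, rfl⟩ := mem_image.1 he; exact hmem i
  rw [incW_mean hsub]
  exact mean_le h0 h1 hqq fun ω _ =>
    frozen_row_le ha hb hs hab q (rowS_frame k hinj hmem hrow hc root0 root1 ω) hq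

end frame

section row

variable {N : ℕ} {X : Env} {x0 y0 : ℤ} {c : ℤ × ℤ}

/-- the rows of `H30.Mid.Row`, root on the strand of the last end -/
theorem rowS_real (h : HasRow X N x0 y0)
    (hc : ∀ i : Fin N, (i : ℕ) + 1 < N → rcr x0 y0 (i, .E) ≠ c)
    (root0 : ∀ i : Fin N, (i : ℕ) + 1 = N → rp x0 y0 i = false →
      Pt X (rcr x0 y0 (i, .E)) X.c0)
    (root1 : ∀ i : Fin N, (i : ℕ) + 1 = N → rp x0 y0 i = true →
      Pt X X.c0 (rcr x0 y0 (i, .E))) (ω : Finset (ℤ × ℤ)) :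
    RowS N (X.freeze (RS N x0 y0) ω) (rl x0 y0) (rp x0 y0) (rcr x0 y0) c := by
  refine RowS.mk0 (rtiles h ω) ?_ ?_ hc
    (fun i h hp => (root0 i h hp).frz) (fun i h hp => Pt.frz (root1 i h hp))
  · intro i j h
    unfold rp rl Pool.Agent.H69.M6b.pr0 Pool.Agent.H69.M6b.lbt
    simp only
    by_cases h2 : (x0 + (i : ℕ) - y0) % 2 = 1
    · rw [decide_eq_true h2, decide_eq_false (by push_cast [h]; omega)]; rfl
    · rw [decide_eq_false h2, decide_eq_true (by push_cast [h]; omega)]; rfl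
  · intro i j h
    unfold rcr rl Pool.Agent.H69.M6b.crn Pool.Agent.H69.M6b.lbt
    simp only
    ext <;> push_cast [h] <;> ring

/-- **The frozen bound for the row `RS N x0 y0`**, for every state of the labels off the row. The weights: `a`
on the state `{W-N, S-E}`, `b` on `{W-S, N-E}`. -/
theorem frozen_RS {a b : ℂ} (ha : ‖a‖ = 1) (hb : ‖b‖ = 1) (hs : a + b = 1)
    (hab : a * b = 1) {q : ℤ × ℤ → ℂ} (h : HasRow X N x0 y0)
    (hc : ∀ i : Fin N, (i : ℕ) + 1 < N → rcr x0 y0 (i, .E) ≠ c)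
    (root0 : ∀ i : Fin N, (i : ℕ) + 1 = N → rp x0 y0 i = false →
      Pt X (rcr x0 y0 (i, .E)) X.c0)
    (root1 : ∀ i : Fin N, (i : ℕ) + 1 = N → rp x0 y0 i = true →
      Pt X X.c0 (rcr x0 y0 (i, .E)))
    (hq : ∀ i : Fin N, q (rl x0 y0 i) = if rp x0 y0 i then b else a) {ω : Finset (ℤ × ℤ)}
    (hω : ω ⊆ X.E \ RS N x0 y0) :
    ‖Ec q (RS N x0 y0) (fun ρ => X.incO (ρ ∪ ω) c)‖ ≤ 1 := by
  rw [← incW_freeze h hω]
  exact frozen_row_le ha hb hs hab q (rowS_real h hc root0 root1 ω) hq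

/-- the state of the row off the plane labels may be any `ω`: `X.freeze` form -/
theorem frozen_RS' {a b : ℂ} (ha : ‖a‖ = 1) (hb : ‖b‖ = 1) (hs : a + b = 1)
    (hab : a * b = 1) {q : ℤ × ℤ → ℂ} (h : HasRow X N x0 y0)
    (hc : ∀ i : Fin N, (i : ℕ) + 1 < N → rcr x0 y0 (i, .E) ≠ c)
    (root0 : ∀ i : Fin N, (i : ℕ) + 1 = N → rp x0 y0 i = false →
      Pt X (rcr x0 y0 (i, .E)) X.c0)
    (root1 : ∀ i : Fin N, (i : ℕ) + 1 = N → rp x0 y0 i = true →
      Pt X X.c0 (rcr x0 y0 (i, .E)))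
    (hq : ∀ i : Fin N, q (rl x0 y0 i) = if rp x0 y0 i then b else a) (ω : Finset (ℤ × ℤ)) :
    (X.freeze (RS N x0 y0) ω).incW q c = 0 ∨ ‖(X.freeze (RS N x0 y0) ω).incW q c‖ = 1 :=
  frozen_row ha hb hs hab q N _ _ _ _ c (rowS_real h hc root0 root1 ω) hq

/-- **The frozen bound for the row `RS N x0 y0`**, mean over the labels off the row. -/
theorem frozen_RS_mean {a b : ℂ} (ha : ‖a‖ = 1) (hb : ‖b‖ = 1) (hs : a + b = 1)
    (hab : a * b = 1) {q : ℤ × ℤ → ℂ} {q' : ℤ × ℤ → ℝ} (h0 : ∀ e, 0 ≤ q' e)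
    (h1 : ∀ e, q' e ≤ 1) (hqq : ∀ e ∈ X.E \ RS N x0 y0, q e = q' e) (h : HasRow X N x0 y0)
    (hc : ∀ i : Fin N, (i : ℕ) + 1 < N → rcr x0 y0 (i, .E) ≠ c)
    (root0 : ∀ i : Fin N, (i : ℕ) + 1 = N → rp x0 y0 i = false →
      Pt X (rcr x0 y0 (i, .E)) X.c0)
    (root1 : ∀ i : Fin N, (i : ℕ) + 1 = N → rp x0 y0 i = true →
      Pt X X.c0 (rcr x0 y0 (i, .E)))
    (hq : ∀ i : Fin N, q (rl x0 y0 i) = if rp x0 y0 i then b else a) : ‖X.incW q c‖ ≤ 1 := by
  rw [incW_mean h]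
  exact mean_le h0 h1 hqq fun ω _ =>
    frozen_row_le ha hb hs hab q (rowS_real h hc root0 root1 ω) hq

end row

end Pool.Agent.H36.W
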