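import Mathlib
import Pool.Agent.H81.G1.Exists
import Pool.Agent.Q1.M6c.Toggle
import Pool.Agent.Q1.M6a.WClosed

set_option autoImplicit false
set_option linter.unusedSectionVars false
open Finset

/-!
# Deterministic paths of an environment and loops which avoid a corner

`Pt X a b`: the deterministic strand from the corner `a` reaches the corner `b` before a random label;
`PtA X c a b`: and does not visit the corner `c`. `OnW T v c`: the corner `c` is on the wire of the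
outgoing end `v`. `tog_eq`: if the loop of an incoming end of the tile `e` avoids the root and the corner
`c`, then the increment of `c` does not depend on the state of `e`.
-/

namespace Pool.Agent.H36.W

open Pool.Agent.H75.Perc Pool.Agent.H75.TwoArm Pool.Agent.Q1 Pool.Agent.H81.G1 Pool.Agent.H99.NC

/-! ### Orbits -/

section orbits

variable {α : Type*} {f f' : α → α}

/-- `f` leads from `a` to `b` in `n` steps and avoids `c` -/
def Av (f : α → α) (c : α) (n : ℕ) (a b : α) : Prop := f^[n] a = b ∧ ∀ i ≤ n, f^[i] a ≠ c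

lemma Av.trans {c : α} {n m : ℕ} {a b d : α} (h : Av f c n a b) (h' : Av f c m b d) :
    Av f c (n + m) a d := by
  obtain ⟨h1, h2⟩ := h
  obtain ⟨h3, h4⟩ := h'
  refine ⟨by rw [Nat.add_comm, Function.iterate_add_apply, h1, h3], fun i hi => ?_⟩
  by_cases hin : i ≤ n
  · exact h2 i hin
  · obtain ⟨j, rfl⟩ : ∃ j, i = j + n := ⟨i - n, by omega⟩
    rw [Function.iterate_add_apply, h1]
    exact h4 j (by omega)

lemma Av.loop {c : α} {n : ℕ} {a : α} (h : Av f c n a a) (hn : 0 < n) : ¬ InOrb f a c := by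
  rintro ⟨i, hi⟩
  have h1 : Function.IsPeriodicPt f n a := h.1
  have h2 := h1.iterate_mod_apply i
  apply h.2 (i % n) (Nat.mod_lt _ hn).le
  rw [h2, hi]

/-- an exchange changes the orbit of `c` at most by the orbit of `q` -/
lemma visit_iff {p q c y : α} (h : Swapped f f' p q) {L M : ℕ} (hO : Orb f c L) (hM : Orb f q M)
    (hc : ¬ InOrb f c q) (hy : ¬ InOrb f q y) : InOrb f' c y ↔ InOrb f c y := by
  by_cases hp : InOrb f c p
  · constructor
    · rintro ⟨n, rfl⟩
      have key : ∀ n, InOrb f c (f'^[n] c) ∨ InOrb f q (f'^[n] c) := by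
        intro n
        induction n with
        | zero => left; exact ⟨0, rfl⟩
        | succ n ih =>
          rw [Function.iterate_succ_apply']
          generalize f'^[n] c = z at ih
          by_cases h1 : z = p
          · right; rw [h1, h.atp]; exact ⟨1, rfl⟩
          by_cases h2 : z = q
          · left; rw [h2, h.atq]; exact inOrb_trans hp ⟨1, rfl⟩
          rw [h.off z h1 h2]
          rcases ih with ih | ih
          · left; exact inOrb_trans ih ⟨1, rfl⟩
          · right; exact inOrb_trans ih ⟨1, rfl⟩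
      rcases key n with h1 | h1
      · exact h1
      · exact absurd h1 hy
    · exact (h.merge hO hM hp hc).2.2.1 y
  · have := avoid_orb h hp hc
    constructor
    · rintro ⟨n, hn⟩; exact ⟨n, by rw [← this, hn]⟩
    · rintro ⟨n, hn⟩; exact ⟨n, by rw [this, hn]⟩

end orbits

/-! ### Independence of a tile -/

variable {X : Env}

/-- same increment if the corner is on both paths or on none -/
lemma incO_same {ω : Finset (ℤ × ℤ)} (hω : ω ⊆ X.E) {e : ℤ × ℤ} (he : e ∈ X.E) {c : ℤ × ℤ}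
    (h : InOrb (X.f (insert e ω)) X.c0 c ↔ InOrb (X.f ω) X.c0 c) :
    X.incO ω c = X.incO (insert e ω) c := by
  have hω' : insert e ω ⊆ X.E := insert_subset he hω
  by_cases hc : InOrb (X.f ω) X.c0 c
  · obtain ⟨i, hi, hic⟩ := ((Env.orb hω).inOrb_iff c).1 hc
    obtain ⟨j, hj, hjc⟩ := ((Env.orb hω').inOrb_iff c).1 (h.2 hc)
    rw [Env.incO_of hω hi hic, Env.incO_of hω' hj hjc, Env.toggle hω he c i j hi hj hic hjc]
  · have hc' : ¬ InOrb (X.f (insert e ω)) X.c0 c := fun h1 => hc (h.1 h1)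
    rw [Env.incO_zero (fun i _ hi => hc ⟨i, hi⟩), Env.incO_zero (fun i _ hi => hc' ⟨i, hi⟩)]

/-- the loop of `x` in the configuration `η` avoids the corner -/
def LpA (X : Env) (η : Finset (ℤ × ℤ)) (x c : ℤ × ℤ) : Prop := ¬ InOrb (X.f η) x c

lemma in_pair {e x : ℤ × ℤ} (ho : (e.1 + e.2) % 2 = 1) (hx : lab x = e) : x = in1 e ∨ x = in2 e :=
  (Pool.Agent.H75.Perc.lab_eq_iff e x ho).1 hx

/-- **A loop through the tile `e` which avoids the root and `c`: the state of `e` is irrelevant.** -/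
theorem tog_eq {ω η : Finset (ℤ × ℤ)} (hω : ω ⊆ X.E) {e : ℤ × ℤ} (he : e ∈ X.E) (hn : e ∉ ω)
    (hη : η = ω ∨ η = insert e ω) {x c : ℤ × ℤ} (hx : lab x = e) (h0 : LpA X η x X.c0)
    (hc : LpA X η x c) : X.incO ω c = X.incO (insert e ω) c := by
  have hω' : insert e ω ⊆ X.E := insert_subset he hω
  have ho := X.odd e he
  have hηE : η ⊆ X.E := by rcases hη with rfl | rfl; exact hω; exact hω'
  obtain ⟨x', hsw⟩ : ∃ x', Swapped (X.f ω) (X.f (insert e ω)) x' x := by
    rcases in_pair ho hx with h | h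
    · exact ⟨_, h ▸ (Env.swapped he hn).comm⟩
    · exact ⟨_, h ▸ Env.swapped he hn⟩
  have hxS : x ∈ X.S := X.in_mem _ (by rw [hx]; exact he)
  obtain ⟨M, hM⟩ := Env.orb_ex hηE hxS
  have h0' : ¬ InOrb (X.f η) X.c0 x := fun h => h0 (inOrb_symm (Env.orb hηE) h)
  apply incO_same hω he
  rcases hη with rfl | rfl
  · exact visit_iff hsw (Env.orb hηE) hM h0' hc
  · exact (visit_iff hsw.symm (Env.orb hηE) hM h0' hc).symm

/-- a loop of the root which avoids `c`: the increment vanishes -/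
lemma incO_loop {ω : Finset (ℤ × ℤ)} {x c : ℤ × ℤ}
    (h0 : InOrb (X.f ω) x X.c0) (hc : LpA X ω x c) : X.incO ω c = 0 := by
  apply Env.incO_zero
  intro i _ hi
  apply hc
  exact inOrb_trans h0 ⟨i, hi⟩

/-! ### Deterministic paths -/

/-- the deterministic strand leads from `a` to `b` -/
def Pt (X : Env) (a b : ℤ × ℤ) : Prop :=
  ∃ n, X.out^[n] a = b ∧ ∀ i < n, lab (X.out^[i] a) ∉ X.E

/-- the deterministic strand leads from `a` to `b` and avoids `c` -/
def PtA (X : Env) (c a b : ℤ × ℤ) : Prop :=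
  ∃ n, (X.out^[n] a = b ∧ ∀ i < n, lab (X.out^[i] a) ∉ X.E) ∧ ∀ i ≤ n, X.out^[i] a ≠ c

lemma PtA.pt {c a b : ℤ × ℤ} (h : PtA X c a b) : Pt X a b := by
  obtain ⟨n, h1, -⟩ := h
  exact ⟨n, h1⟩

lemma Pt.refl (a : ℤ × ℤ) : Pt X a a := ⟨0, rfl, fun i hi => absurd hi (Nat.not_lt_zero i)⟩

lemma Pt.trans {a b d : ℤ × ℤ} (h : Pt X a b) (h' : Pt X b d) : Pt X a d := by
  obtain ⟨n, h1, h2⟩ := h
  obtain ⟨m, h3, h4⟩ := h'
  refine ⟨n + m, by rw [Nat.add_comm, Function.iterate_add_apply, h1, h3], fun i hi => ?_⟩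
  by_cases hin : i < n
  · exact h2 i hin
  · obtain ⟨j, rfl⟩ : ∃ j, i = j + n := ⟨i - n, by omega⟩
    rw [Function.iterate_add_apply, h1]
    exact h4 j (by omega)

lemma PtA.trans {c a b d : ℤ × ℤ} (h : PtA X c a b) (h' : PtA X c b d) : PtA X c a d := by
  obtain ⟨n, ⟨h1, h2⟩, k1⟩ := h
  obtain ⟨m, ⟨h3, h4⟩, k2⟩ := h'
  refine ⟨n + m, ⟨by rw [Nat.add_comm, Function.iterate_add_apply, h1, h3], fun i hi => ?_⟩,
    fun i hi => ?_⟩
  · by_cases hin : i < n
    · exact h2 i hin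
    · obtain ⟨j, rfl⟩ : ∃ j, i = j + n := ⟨i - n, by omega⟩
      rw [Function.iterate_add_apply, h1]
      exact h4 j (by omega)
  · by_cases hin : i ≤ n
    · exact k1 i hin
    · obtain ⟨j, rfl⟩ : ∃ j, i = j + n := ⟨i - n, by omega⟩
      rw [Function.iterate_add_apply, h1]
      exact k2 j (by omega)

lemma PtA.av {c a b : ℤ × ℤ} (h : PtA X c a b) {ω : Finset (ℤ × ℤ)} (hω : ω ⊆ X.E)
    (ha : a ∈ X.S) : ∃ n, Av (X.f ω) c n a b := by
  obtain ⟨n, ⟨h1, h2⟩, h3⟩ := h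
  have e := (wire_iter hω ha h2).1
  exact ⟨n, by rw [e n le_rfl, h1], fun i hi => by rw [e i hi]; exact h3 i hi⟩

lemma Pt.inOrb {a b : ℤ × ℤ} (h : Pt X a b) {ω : Finset (ℤ × ℤ)} (hω : ω ⊆ X.E)
    (ha : a ∈ X.S) : InOrb (X.f ω) a b := by
  obtain ⟨n, h1, h2⟩ := h
  exact ⟨n, by rw [(wire_iter hω ha h2).1 n le_rfl, h1]⟩

/-! ### Freezing -/

lemma frz_out {E' ω1 : Finset (ℤ × ℤ)} {a : ℤ × ℤ} (ha : lab a ∉ X.E) :
    (X.freeze E' ω1).out a = X.out a := by
  show (if lab a ∈ X.E then nx ω1 a else X.out a) = _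
  rw [if_neg ha]

lemma frz_iter {E' ω1 : Finset (ℤ × ℤ)} {a : ℤ × ℤ} {n : ℕ}
    (h : ∀ i < n, lab (X.out^[i] a) ∉ X.E) :
    ∀ i ≤ n, (X.freeze E' ω1).out^[i] a = X.out^[i] a := by
  intro i
  induction i with
  | zero => intro _; rfl
  | succ i ih =>
    intro hi
    rw [Function.iterate_succ_apply', Function.iterate_succ_apply', ih (by omega),
      frz_out (h i (by omega))]

lemma frz_path {E' ω1 : Finset (ℤ × ℤ)} {a b : ℤ × ℤ} {n : ℕ}
    (h : X.out^[n] a = b ∧ ∀ i < n, lab (X.out^[i] a) ∉ X.E) :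
    (X.freeze E' ω1).out^[n] a = b ∧
      ∀ i < n, lab ((X.freeze E' ω1).out^[i] a) ∉ (X.freeze E' ω1).E := by
  have e := frz_iter (E' := E') (ω1 := ω1) h.2
  refine ⟨by rw [e n le_rfl, h.1], fun i hi => ?_⟩
  rw [e i hi.le]
  exact fun h' => h.2 i hi (mem_inter.1 h').1

lemma Pt.frz {E' ω1 : Finset (ℤ × ℤ)} {a b : ℤ × ℤ} (h : Pt X a b) :
    Pt (X.freeze E' ω1) a b := by
  obtain ⟨n, h⟩ := h
  exact ⟨n, frz_path h⟩

lemma PtA.frz {E' ω1 : Finset (ℤ × ℤ)} {c a b : ℤ × ℤ} (h : PtA X c a b) :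
    PtA (X.freeze E' ω1) c a b := by
  obtain ⟨n, h, h2⟩ := h
  refine ⟨n, frz_path h, fun i hi => ?_⟩
  rw [frz_iter h.2 i hi]
  exact h2 i hi

end Pool.Agent.H36.W
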