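import Pool.Agent.H36.W.Wire
import Pool.Agent.H36.W.Ears

set_option autoImplicit false
set_option linter.unusedSectionVars false
open Finset

/-!
# Rows of tiles in an environment and the removal of an ear
-/

namespace Pool.Agent.H36.W

open Pool.Agent.H75.Perc Pool.Agent.H75.TwoArm Pool.Agent.Q1 Pool.Agent.H81.G1 Pool.Agent.H99.NC

/-- opposite end -/
def opp : Dir → Dir
  | .W => .E | .E => .W | .N => .S | .S => .N

lemma par_opp1 {ι : Type*} (p : ι → Bool) (b : Bool) (i : ι) (d : Dir) :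
    par (sgn p (!b)) (par (sgn p b) (i, d)) = (i, opp d) := by
  unfold par sgn
  cases p i <;> cases b <;> cases d <;> rfl

lemma par_opp2 {ι : Type*} (p : ι → Bool) (b : Bool) (i : ι) (d : Dir) :
    par (sgn p (!b)) (i, opp d) = par (sgn p b) (i, d) := by
  unfold par sgn
  cases p i <;> cases b <;> cases d <;> rfl

/-- the random labels of the environment are a row of tiles with alternating parities; the wires inside the
row avoid the corner `c`; the root is on the wire of the last end -/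
structure RowS (N : ℕ) (X : Env) (lb : Fin N → ℤ × ℤ) (p : Fin N → Bool)
    (cr : Fin N × Dir → ℤ × ℤ) (c : ℤ × ℤ) : Prop where
  tiles : Tiles X lb p cr
  alt : ∀ i j : Fin N, (j : ℕ) = i + 1 → p j = !p i
  lin0 : ∀ i j : Fin N, (j : ℕ) = i + 1 → p i = false → PtA X c (cr (i, .E)) (cr (j, .W))
  lin1 : ∀ i j : Fin N, (j : ℕ) = i + 1 → p i = true → PtA X c (cr (j, .W)) (cr (i, .E))
  root0 : ∀ i : Fin N, (i : ℕ) + 1 = N → p i = false → Pt X (cr (i, .E)) X.c0
  root1 : ∀ i : Fin N, (i : ℕ) + 1 = N → p i = true → Pt X X.c0 (cr (i, .E))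

section

variable {N : ℕ} {X : Env} {lb : Fin N → ℤ × ℤ} {p : Fin N → Bool}
  {cr : Fin N × Dir → ℤ × ℤ} {c : ℤ × ℤ}

lemma inc_h (i : Fin N) (d : Dir) (hd : d = .W ∨ d = .E) : inc p (i, d) = p i := by
  unfold inc
  rcases hd with rfl | rfl <;> simp [Dir.v]

lemma RowS.wire (R : RowS N X lb p cr c) (i j : Fin N) (h : (j : ℕ) = i + 1) :
    wπ R.tiles (i, .E) = (j, .W) := by
  cases hp : p i
  · exact (ptA_onW R.tiles (by rw [inc_h _ _ (Or.inr rfl), hp])
      (by rw [inc_h _ _ (Or.inl rfl), R.alt i j h, hp]; rfl) (R.lin0 i j h hp)).1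
  · have := (ptA_onW R.tiles (v := (j, .W)) (y := (i, .E))
      (by rw [inc_h _ _ (Or.inl rfl), R.alt i j h, hp]; rfl)
      (by rw [inc_h _ _ (Or.inr rfl), hp]) (R.lin1 i j h hp)).1
    rw [← this, wπ_wπ]

/-- the wires inside the row avoid `c` -/
lemma RowS.lin_off (R : RowS N X lb p cr c) {w : Fin N × Dir} (hw : Lin w)
    (ho : inc p w = false) : ¬ OnW R.tiles w c := by
  obtain ⟨i, d⟩ := w
  rcases hw with ⟨h1, h2⟩ | ⟨h1, h2⟩ <;> simp only at h1 h2 <;> subst h1
  · have hp : p i = false := by rwa [inc_h _ _ (Or.inr rfl)] at ho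
    exact (ptA_onW R.tiles ho (y := (⟨(i : ℕ) + 1, h2⟩, .W))
      (by rw [inc_h _ _ (Or.inl rfl), R.alt i _ rfl, hp]; rfl) (R.lin0 i _ rfl hp)).2
  · have hp : p i = false := by rwa [inc_h _ _ (Or.inl rfl)] at ho
    have h3 : ((i : ℕ) - 1) < N := by omega
    have h4 : (i : ℕ) = (⟨(i : ℕ) - 1, h3⟩ : Fin N) + 1 := by
      show (i : ℕ) = (i : ℕ) - 1 + 1; omega
    have hp' : p ⟨(i : ℕ) - 1, h3⟩ = true := by
      have := R.alt _ i h4
      rw [hp] at this
      simpa using this.symm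
    exact (ptA_onW R.tiles ho (y := (⟨(i : ℕ) - 1, h3⟩, .E))
      (by rw [inc_h _ _ (Or.inr rfl), hp']) (R.lin1 _ i h4 hp')).2

/-- the wire of the root -/
lemma RowS.rootw (R : RowS N X lb p cr c) (l : Fin N) (hl : (l : ℕ) + 1 = N) :
    ∃ r, inc p r = false ∧ OnW R.tiles r X.c0 ∧ (r = (l, .E) ∨ wπ R.tiles r = (l, .E)) := by
  cases hp : p l
  · have ho : inc p (l, Dir.E) = false := by rw [inc_h _ _ (Or.inr rfl), hp]
    exact ⟨(l, .E), ho, pt_onW R.tiles ho (R.root0 l hl hp), Or.inl rfl⟩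
  · have ho : inc p (l, Dir.E) = true := by rw [inc_h _ _ (Or.inr rfl), hp]
    exact ⟨wπ R.tiles (l, .E), by rw [inc_wπ, ho]; rfl,
      pt_onW' R.tiles ho X.c0_mem (R.root1 l hl hp), Or.inr (wπ_wπ _ _)⟩

/-- the last outgoing end -/
lemma root_eq (T : Tiles X lb p cr) {l : Fin N} {r v : Fin N × Dir} (hr : inc p r = false)
    (hv : inc p v = false) (h1 : r = (l, .E) ∨ wπ T r = (l, .E))
    (h2 : v = (l, .E) ∨ wπ T v = (l, .E)) : v = r := by
  rcases h1 with h1 | h1 <;> rcases h2 with h2 | h2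
  · rw [h1, h2]
  · have := inc_wπ T v
    rw [h2, ← h1, hr, hv] at this; cases this
  · have := inc_wπ T r
    rw [h1, ← h2, hr, hv] at this; cases this
  · rw [← wπ_wπ T v, h2, ← h1, wπ_wπ]

/-- the network of the row -/
lemma RowS.ear (R : RowS N X lb p cr c) (l : Fin N) (hl : (l : ℕ) + 1 = N) (u : Fin N × Dir) :
    ∃ b v, v ≠ u ∧ inc p v = false ∧ ¬ Lin v ∧ (wπ R.tiles v = par (sgn p b) v ∨
      (Lin (par (sgn p b) (wπ R.tiles v)) ∧
        wπ R.tiles (par (sgn p b) (wπ R.tiles v)) = par (sgn p b) v)) := by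
  obtain ⟨r, hr, hr0, -⟩ := R.rootw l hl
  have hm : Meets X := hr0.meets R.tiles hr
  obtain ⟨y, hy, hne⟩ : ∃ y, inc p y = true ∧ y ≠ rx0 R.tiles hm := by
    by_cases h : inA p l = rx0 R.tiles hm
    · exact ⟨inB p l, inc_inB l, fun e => inA_ne_inB (p := p) l (h.trans e.symm)⟩
    · exact ⟨inA p l, inc_inA l, h⟩
  have W := net_wired R.tiles hm hy hne
  have hrow : (net R.tiles hm y).IsRow := fun i j h => R.wire i j h
  obtain ⟨b, v, h1, h2, h3, h4⟩ := exists_ear W.good hrow (root_turn W) u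
  exact ⟨b, v, h1, h2, h3, h4⟩

/-! ### Sub-rows -/

lemma tiles_rem {M : ℕ} (T : Tiles X lb p cr) (emb : Fin M → Fin N)
    (hi : Function.Injective emb) (b : Bool) (D : Finset (ℤ × ℤ))
    (hD : ∀ j, lb j ∈ D ↔ ¬ ∃ i, emb i = j) :
    Tiles (rem X b D) (fun i => lb (emb i)) (fun i => p (emb i))
      (fun x => cr (emb x.1, x.2)) := by
  refine ⟨fun i j h => hi (T.inj h), fun i => ?_, fun e he => ?_, fun i h => T.tt (emb i) h,
    fun i h => T.ff (emb i) h⟩
  · rw [rem_E, mem_sdiff]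
    refine ⟨T.mem _, fun h => ?_⟩
    exact (hD _).1 h ⟨i, rfl⟩
  · rw [rem_E, mem_sdiff] at he
    obtain ⟨j, rfl⟩ := T.surj e he.1
    have : ∃ i, emb i = j := by
      by_contra h
      exact he.2 ((hD j).2 h)
    obtain ⟨i, rfl⟩ := this
    exact ⟨i, rfl⟩

end

/-! ### Removal of the first tile -/

section

variable {M : ℕ} {X : Env} {lb : Fin (M + 1) → ℤ × ℤ} {p : Fin (M + 1) → Bool}
  {cr : Fin (M + 1) × Dir → ℤ × ℤ} {c : ℤ × ℤ}

lemma RowS.first (R : RowS (M + 1) X lb p cr c) (b : Bool) :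
    RowS M (rem X b {lb 0}) (fun i => lb i.succ) (fun i => p i.succ)
      (fun x => cr (x.1.succ, x.2)) c := by
  refine ⟨tiles_rem R.tiles Fin.succ (Fin.succ_injective M) b _ (fun j => ?_), ?_, ?_, ?_, ?_, ?_⟩
  · rw [mem_singleton]
    constructor
    · rintro h ⟨i, rfl⟩
      exact Fin.succ_ne_zero i (R.tiles.inj h)
    · intro h
      by_contra h'
      apply h
      have hj : j ≠ 0 := fun e => h' (by rw [e])
      exact ⟨j.pred hj, Fin.succ_pred j hj⟩
  · intro i j h
    exact R.alt _ _ (by simp [h])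
  · intro i j h hp
    exact (R.lin0 _ _ (by simp [h]) hp).frz
  · intro i j h hp
    exact (R.lin1 _ _ (by simp [h]) hp).frz
  · intro i h hp
    exact (R.root0 _ (by simp [h]) hp).frz
  · intro i h hp
    exact (R.root1 _ (by simp [h]) hp).frz

/-! ### Removal of the last tile -/

lemma RowS.last (R : RowS (M + 1) X lb p cr c) (b : Bool)
    (h0 : p (Fin.last M) = false → Pt (rem X b {lb (Fin.last M)}) X.c0 (cr (Fin.last M, .W)))
    (h1 : p (Fin.last M) = true → Pt (rem X b {lb (Fin.last M)}) (cr (Fin.last M, .W)) X.c0) :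
    RowS M (rem X b {lb (Fin.last M)}) (fun i => lb i.castSucc) (fun i => p i.castSucc)
      (fun x => cr (x.1.castSucc, x.2)) c := by
  have hlast : ∀ i : Fin M, (i : ℕ) + 1 = M → ((Fin.last M : Fin (M + 1)) : ℕ) =
      (i.castSucc : ℕ) + 1 := by
    intro i h; simp [h]
  refine ⟨tiles_rem R.tiles Fin.castSucc (Fin.castSucc_injective M) b _ (fun j => ?_),
    ?_, ?_, ?_, ?_, ?_⟩
  · rw [mem_singleton]
    constructor
    · rintro h ⟨i, rfl⟩
      exact (Fin.castSucc_lt_last i).ne (R.tiles.inj h)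
    · intro h
      by_contra h'
      apply h
      have hj : j ≠ Fin.last M := fun e => h' (by rw [e])
      exact ⟨j.castPred hj, Fin.castSucc_castPred j hj⟩
  · intro i j h
    exact R.alt _ _ (by simp [h])
  · intro i j h hp
    exact (R.lin0 _ _ (by simp [h]) hp).frz
  · intro i j h hp
    exact (R.lin1 _ _ (by simp [h]) hp).frz
  · intro i h hp
    have h2 := R.alt i.castSucc (Fin.last M) (hlast i h)
    rw [hp] at h2
    exact (R.lin0 _ _ (hlast i h) hp).frz.pt.trans (h1 h2)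
  · intro i h hp
    have h2 := R.alt i.castSucc (Fin.last M) (hlast i h)
    rw [hp] at h2
    exact (h0 h2).trans (R.lin1 _ _ (hlast i h) hp).frz.pt

end

/-! ### Removal of two consecutive tiles -/

section

variable {M : ℕ} {X : Env} {lb : Fin (M + 2) → ℤ × ℤ} {p : Fin (M + 2) → Bool}
  {cr : Fin (M + 2) × Dir → ℤ × ℤ} {c : ℤ × ℤ}

/-- index after the removal of the tiles `k`, `k + 1` -/
def em2 (k : ℕ) (i : Fin M) : Fin (M + 2) :=
  if (i : ℕ) < k then ⟨i, by omega⟩ else ⟨(i : ℕ) + 2, by omega⟩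

lemma em2_lt {k : ℕ} {i : Fin M} (h : (i : ℕ) < k) : (em2 k i : ℕ) = i := by
  unfold em2; rw [if_pos h]

lemma em2_ge {k : ℕ} {i : Fin M} (h : k ≤ (i : ℕ)) : (em2 k i : ℕ) = i + 2 := by
  unfold em2; rw [if_neg (by omega)]

lemma em2_inj (k : ℕ) : Function.Injective (em2 (M := M) k) := by
  intro i j h
  have h := congrArg Fin.val h
  apply Fin.ext
  by_cases hi : (i : ℕ) < k <;> by_cases hj : (j : ℕ) < k
  · rw [em2_lt hi, em2_lt hj] at h; exact h
  · rw [em2_lt hi, em2_ge (by omega)] at h; omega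
  · rw [em2_ge (by omega), em2_lt hj] at h; omega
  · rw [em2_ge (by omega), em2_ge (by omega)] at h; omega

lemma RowS.two (R : RowS (M + 2) X lb p cr c) (b : Bool) (k k' : Fin (M + 2))
    (hk : (k' : ℕ) = k + 1)
    (h1 : p k = true → Pt (rem X b {lb k, lb k'}) (cr (k, .W)) (cr (k', .E)) ∧
      (cr (k, .W) ≠ c → cr (k', .E) ≠ c →
        PtA (rem X b {lb k, lb k'}) c (cr (k, .W)) (cr (k', .E))))
    (h0 : p k = false → Pt (rem X b {lb k, lb k'}) (cr (k', .E)) (cr (k, .W)) ∧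
      (cr (k, .W) ≠ c → cr (k', .E) ≠ c →
        PtA (rem X b {lb k, lb k'}) c (cr (k', .E)) (cr (k, .W)))) :
    RowS M (rem X b {lb k, lb k'}) (fun i => lb (em2 k i)) (fun i => p (em2 k i))
      (fun x => cr (em2 k x.1, x.2)) c := by
  have hkM : (k : ℕ) ≤ M := by have := k'.2; omega
  -- consecutive tiles
  have cons : ∀ i j : Fin M, (j : ℕ) = i + 1 → ((em2 k j : ℕ) = em2 k i + 1) ∨
      ((k : ℕ) = (em2 (k : ℕ) i : ℕ) + 1 ∧ (em2 (k : ℕ) j : ℕ) = k' + 1) := by
    intro i j h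
    by_cases hj : (j : ℕ) < k
    · left; rw [em2_lt hj, em2_lt (by omega)]; exact h
    · by_cases hi : (i : ℕ) < k
      · right
        rw [em2_lt hi, em2_ge (by omega)]
        omega
      · left; rw [em2_ge (by omega), em2_ge (by omega)]; omega
  have hk' : p k' = !p k := R.alt k k' hk
  refine ⟨tiles_rem R.tiles (em2 k) (em2_inj k) b _ (fun j => ?_), ?_, ?_, ?_, ?_, ?_⟩
  · rw [mem_insert, mem_singleton]
    constructor
    · rintro h ⟨i, rfl⟩
      have h2 : (em2 (k : ℕ) i : ℕ) = k ∨ (em2 (k : ℕ) i : ℕ) = k' := by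
        rcases h with h | h
        · left; rw [R.tiles.inj h]
        · right; rw [R.tiles.inj h]
      by_cases hi : (i : ℕ) < k
      · rw [em2_lt hi] at h2; omega
      · rw [em2_ge (by omega)] at h2; omega
    · intro h
      by_contra h'
      push Not at h'
      apply h
      have hj : (j : ℕ) ≠ k := fun e => h'.1 (by rw [Fin.ext e])
      have hj' : (j : ℕ) ≠ k' := fun e => h'.2 (by rw [Fin.ext e])
      by_cases hlt : (j : ℕ) < k
      · refine ⟨⟨j, by omega⟩, ?_⟩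
        apply Fin.ext
        rw [em2_lt (by exact hlt)]
      · refine ⟨⟨(j : ℕ) - 2, by have := j.2; omega⟩, ?_⟩
        apply Fin.ext
        rw [em2_ge (by show (k : ℕ) ≤ (j : ℕ) - 2; omega)]
        show (j : ℕ) - 2 + 2 = j
        omega
  · intro i j h
    rcases cons i j h with h | ⟨h2, h3⟩
    · exact R.alt _ _ h
    · have e1 := R.alt _ _ h2
      have e2 := R.alt _ _ h3
      simp only [e2, hk', e1]
      simp
  · intro i j h hp
    rcases cons i j h with h | ⟨h2, h3⟩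
    · exact (R.lin0 _ _ h hp).frz
    · have e1 : p k = true := by rw [R.alt _ _ h2]; rw [hp]; rfl
      have e2 : p k' = false := by rw [hk', e1]; rfl
      have l1 := R.lin0 _ _ h2 hp
      have l2 := R.lin0 _ _ h3 e2
      have n1 : cr (k, .W) ≠ c := by
        obtain ⟨n, ⟨a1, -⟩, a2⟩ := l1
        rw [← a1]; exact a2 n le_rfl
      have n2 : cr (k', .E) ≠ c := by
        obtain ⟨n, -, a2⟩ := l2
        exact a2 0 (Nat.zero_le _)
      exact (l1.frz.trans ((h1 e1).2 n1 n2)).trans l2.frz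
  · intro i j h hp
    rcases cons i j h with h | ⟨h2, h3⟩
    · exact (R.lin1 _ _ h hp).frz
    · have e1 : p k = false := by rw [R.alt _ _ h2]; rw [hp]; rfl
      have e2 : p k' = true := by rw [hk', e1]; rfl
      have l1 := R.lin1 _ _ h2 hp
      have l2 := R.lin1 _ _ h3 e2
      have n1 : cr (k, .W) ≠ c := by
        obtain ⟨n, -, a2⟩ := l1
        exact a2 0 (Nat.zero_le _)
      have n2 : cr (k', .E) ≠ c := by
        obtain ⟨n, ⟨a1, -⟩, a2⟩ := l2
        rw [← a1]; exact a2 n le_rfl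
      exact (l2.frz.trans ((h0 e1).2 n1 n2)).trans l1.frz
  · intro i h hp
    by_cases hi : (i : ℕ) < k
    · have h2 : (k : ℕ) = (em2 (k : ℕ) i : ℕ) + 1 := by rw [em2_lt hi]; omega
      have h3 : (k' : ℕ) + 1 = M + 2 := by omega
      have e1 : p k = true := by rw [R.alt _ _ h2]; rw [hp]; rfl
      have e2 : p k' = false := by rw [hk', e1]; rfl
      exact ((R.lin0 _ _ h2 hp).frz.pt.trans (h1 e1).1).trans (R.root0 _ h3 e2).frz
    · have h3 : (em2 (k : ℕ) i : ℕ) + 1 = M + 2 := by rw [em2_ge (by omega)]; omega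
      exact (R.root0 _ h3 hp).frz
  · intro i h hp
    by_cases hi : (i : ℕ) < k
    · have h2 : (k : ℕ) = (em2 (k : ℕ) i : ℕ) + 1 := by rw [em2_lt hi]; omega
      have h3 : (k' : ℕ) + 1 = M + 2 := by omega
      have e1 : p k = false := by rw [R.alt _ _ h2]; rw [hp]; rfl
      have e2 : p k' = true := by rw [hk', e1]; rfl
      exact (Pt.frz (R.root1 _ h3 e2)).trans ((h0 e1).1.trans (R.lin1 _ _ h2 hp).frz.pt)
    · have h3 : (em2 (k : ℕ) i : ℕ) + 1 = M + 2 := by rw [em2_ge (by omega)]; omega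
      exact (R.root1 _ h3 hp).frz

end

end Pool.Agent.H36.W
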