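import Pool.Agent.H36.W.Path
import Pool.Agent.H36.W.Euler

set_option autoImplicit false
set_option linter.unusedSectionVars false
open Finset

/-!
# Wires, the steps through the tiles, and the removal of tiles
-/

namespace Pool.Agent.H36.W

open Pool.Agent.H75.Perc Pool.Agent.H75.TwoArm Pool.Agent.Q1 Pool.Agent.H81.G1 Pool.Agent.H99.NC

variable {ι : Type*} [Fintype ι] [DecidableEq ι]
  {X : Env} {lb : ι → ℤ × ℤ} {p : ι → Bool} {cr : ι × Dir → ℤ × ℤ} {z : ℤ × ℤ}

/-- the corner `z` is on the wire of the outgoing end `v` -/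
def OnW (T : Tiles X lb p cr) (v : ι × Dir) (z : ℤ × ℤ) : Prop :=
  ∃ i ≤ wl T v, X.out^[i] (cr v) = z

lemma wπ_out (T : Tiles X lb p cr) {v : ι × Dir} (hv : inc p v = false) : wπ T v = sg T v :=
  if_pos hv

lemma wπ_cr (T : Tiles X lb p cr) {v : ι × Dir} (hv : inc p v = false) :
    cr (wπ T v) = X.out^[wl T v] (cr v) := by rw [wπ_out T hv, sg_cr T hv]

lemma onW_unique (T : Tiles X lb p cr) {u v : ι × Dir} (hu : inc p u = false)
    (hv : inc p v = false) (h1 : OnW T u z) (h2 : OnW T v z) : u = v := by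
  obtain ⟨i, hi, h1⟩ := h1
  obtain ⟨j, hj, h2⟩ := h2
  have e1 : X.out^[wl T u - i] z = cr (sg T u) := by
    rw [sg_cr T hu, ← h1, ← Function.iterate_add_apply]; congr 1; omega
  have e2 : X.out^[wl T v - j] z = cr (sg T v) := by
    rw [sg_cr T hv, ← h2, ← Function.iterate_add_apply]; congr 1; omega
  have n1 : ∀ k < wl T u - i, lab (X.out^[k] z) ∉ X.E := by
    intro k hk
    rw [← h1, ← Function.iterate_add_apply]
    exact wl_lt T hu (by omega)
  have n2 : ∀ k < wl T v - j, lab (X.out^[k] z) ∉ X.E := by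
    intro k hk
    rw [← h2, ← Function.iterate_add_apply]
    exact wl_lt T hv (by omega)
  have e : wl T u - i = wl T v - j := by
    rcases lt_trichotomy (wl T u - i) (wl T v - j) with h | h | h
    · exfalso; apply n2 _ h; rw [e1]; exact mem_cr T (sg_in T hu)
    · exact h
    · exfalso; apply n1 _ h; rw [e2]; exact mem_cr T (sg_in T hv)
  rw [e, e2] at e1
  exact (sg_inj T hv hu (cr_inj T (sg_in T hv) (sg_in T hu) e1)).symm

lemma wire_ptA (T : Tiles X lb p cr) {v : ι × Dir} (hv : inc p v = false) (h : ¬ OnW T v z) :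
    PtA X z (cr v) (cr (wπ T v)) :=
  ⟨wl T v, ⟨(wπ_cr T hv).symm, fun _ hi => wl_lt T hv hi⟩, fun i hi he => h ⟨i, hi, he⟩⟩

lemma ptA_onW (T : Tiles X lb p cr) {v y : ι × Dir} (hv : inc p v = false) (hy : inc p y = true)
    (h : PtA X z (cr v) (cr y)) : wπ T v = y ∧ ¬ OnW T v z := by
  obtain ⟨n, ⟨h1, h2⟩, h3⟩ := h
  obtain ⟨w1, w2⟩ := wired_pi T hv hy h2 h1
  refine ⟨by rw [wπ_out T hv, w2], ?_⟩
  rintro ⟨i, hi, he⟩
  exact h3 i (by omega) he

lemma pt_onW (T : Tiles X lb p cr) {v : ι × Dir} (hv : inc p v = false)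
    (h : Pt X (cr v) z) : OnW T v z := by
  obtain ⟨n, h1, h2⟩ := h
  refine ⟨n, ?_, h1⟩
  by_contra hlt
  exact h2 _ (not_le.1 hlt) (wl_mem T hv)

lemma onW_pt1 (T : Tiles X lb p cr) {v : ι × Dir} (hv : inc p v = false) (h : OnW T v z) :
    Pt X (cr v) z := by
  obtain ⟨i, hi, h1⟩ := h
  exact ⟨i, h1, fun k hk => wl_lt T hv (by omega)⟩

lemma onW_pt2 (T : Tiles X lb p cr) {v : ι × Dir} (hv : inc p v = false) (h : OnW T v z) :
    Pt X z (cr (wπ T v)) := by
  obtain ⟨i, hi, h1⟩ := h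
  refine ⟨wl T v - i, ?_, fun k hk => ?_⟩
  · rw [wπ_cr T hv, ← h1, ← Function.iterate_add_apply]; congr 1; omega
  · rw [← h1, ← Function.iterate_add_apply]
    exact wl_lt T hv (by omega)

lemma pt_onW' (T : Tiles X lb p cr) {x : ι × Dir} (hx : inc p x = true) (hz : z ∈ X.S)
    (h : Pt X z (cr x)) : OnW T (wπ T x) z := by
  obtain ⟨n, h1, h2⟩ := h
  set v := wπ T x with hvd
  have hv : inc p v = false := by rw [hvd, inc_wπ, hx]; rfl
  have hvx : wπ T v = x := wπ_wπ T x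
  have h0 : (∅ : Finset (ℤ × ℤ)) ⊆ X.E := empty_subset _
  have e1 := (wire_iter h0 (out_mem_S T hv) (n := wl T v) (fun i hi => wl_lt T hv hi)).1
  have e2 := (wire_iter h0 hz (n := n) h2).1
  have e3 : (X.f ∅)^[wl T v] (cr v) = (X.f ∅)^[n] z := by
    rw [e1 _ le_rfl, e2 _ le_rfl, ← wπ_cr T hv, hvx, h1]
  by_cases hle : n ≤ wl T v
  · refine ⟨wl T v - n, by omega, ?_⟩
    have e4 : (X.f ∅)^[wl T v] (cr v) = (X.f ∅)^[n] ((X.f ∅)^[wl T v - n] (cr v)) := by
      rw [← Function.iterate_add_apply]; congr 1; omega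
    rw [e4] at e3
    have := (Env.f_injective h0).iterate n e3
    rw [← this, e1 _ (by omega)]
  · exfalso
    have e4 : (X.f ∅)^[n] z = (X.f ∅)^[wl T v] ((X.f ∅)^[n - wl T v - 1 + 1] z) := by
      rw [← Function.iterate_add_apply]; congr 1; omega
    rw [e4] at e3
    have e5 := (Env.f_injective h0).iterate _ e3
    rw [Function.iterate_succ_apply', cr_out (ω := ∅) T hv] at e5
    have e6 := Env.f_injective h0 e5
    rw [e2 _ (by omega)] at e6
    apply h2 (n - wl T v - 1) (by omega)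
    rw [← e6]
    apply mem_cr T
    rw [inc_par, hv]; rfl

lemma OnW.meets (T : Tiles X lb p cr) {v : ι × Dir} (hv : inc p v = false)
    (h : OnW T v X.c0) : Meets X := by
  obtain ⟨n, h1, -⟩ := onW_pt2 T hv h
  refine ⟨n, ?_⟩
  rw [h1]
  exact mem_cr T (by rw [inc_wπ, hv]; rfl)

lemma not_onW_ne (T : Tiles X lb p cr) {v : ι × Dir} (hv : inc p v = false) (h : ¬ OnW T v z) :
    cr v ≠ z ∧ cr (wπ T v) ≠ z :=
  ⟨fun e => h ⟨0, Nat.zero_le _, e⟩, fun e => h ⟨wl T v, le_rfl, by rw [← wπ_cr T hv, e]⟩⟩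

/-! ### Steps through the tiles -/

lemma par_congr {s s' : ι → Bool} {x : ι × Dir} (h : s x.1 = s' x.1) : par s x = par s' x := by
  unfold par; rw [h]

/-- a step through a random tile -/
lemma step_av (T : Tiles X lb p cr) {ω : Finset (ℤ × ℤ)} {s : ι → Bool} {x : ι × Dir}
    (hx : inc p x = true) (hs : stt lb p ω x.1 = s x.1) (h1 : cr x ≠ z) (h2 : cr (par s x) ≠ z) :
    Av (X.f ω) z 1 (cr x) (cr (par s x)) := by
  have e : X.f ω (cr x) = cr (par s x) := by rw [f_cr T ω hx, par_congr hs]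
  refine ⟨e, fun i hi => ?_⟩
  rcases Nat.le_one_iff_eq_zero_or_eq_one.1 hi with rfl | rfl
  · exact h1
  · rw [Function.iterate_one, e]; exact h2

/-- a step through a frozen tile -/
lemma step_frz (T : Tiles X lb p cr) {E' ω1 : Finset (ℤ × ℤ)} {s : ι → Bool} {x : ι × Dir}
    (hx : inc p x = true) (hE : lb x.1 ∉ E') (hs : stt lb p ω1 x.1 = s x.1) (h1 : cr x ≠ z)
    (h2 : cr (par s x) ≠ z) : PtA (X.freeze E' ω1) z (cr x) (cr (par s x)) := by
  have e : (X.freeze E' ω1).out (cr x) = cr (par s x) := by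
    show (if lab (cr x) ∈ X.E then nx ω1 (cr x) else X.out (cr x)) = _
    rw [if_pos (mem_cr T hx), ← Env.f_in (mem_cr T hx), f_cr T ω1 hx, par_congr hs]
  refine ⟨1, ⟨e, fun i hi => ?_⟩, fun i hi => ?_⟩
  · obtain rfl : i = 0 := by omega
    intro h
    rw [Function.iterate_zero, id, lab_cr T hx] at h
    exact hE (mem_inter.1 h).2
  · rcases Nat.le_one_iff_eq_zero_or_eq_one.1 hi with rfl | rfl
    · exact h1
    · rw [Function.iterate_one, e]; exact h2

lemma step_frz' (T : Tiles X lb p cr) {E' ω1 : Finset (ℤ × ℤ)} {s : ι → Bool} {x : ι × Dir}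
    (hx : inc p x = true) (hE : lb x.1 ∉ E') (hs : stt lb p ω1 x.1 = s x.1) :
    Pt (X.freeze E' ω1) (cr x) (cr (par s x)) := by
  have e : (X.freeze E' ω1).out (cr x) = cr (par s x) := by
    show (if lab (cr x) ∈ X.E then nx ω1 (cr x) else X.out (cr x)) = _
    rw [if_pos (mem_cr T hx), ← Env.f_in (mem_cr T hx), f_cr T ω1 hx, par_congr hs]
  refine ⟨1, e, fun i hi => ?_⟩
  obtain rfl : i = 0 := by omega
  intro h
  rw [Function.iterate_zero, id, lab_cr T hx] at h
  exact hE (mem_inter.1 h).2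

/-! ### Loops -/

/-- the loop of an ear with one passage -/
lemma loop1 (T : Tiles X lb p cr) {ω : Finset (ℤ × ℤ)} (hω : ω ⊆ X.E) {s : ι → Bool}
    {v : ι × Dir} (hv : inc p v = false) (hs : stt lb p ω v.1 = s v.1) (h : wπ T v = par s v)
    (hz : ¬ OnW T v z) : LpA X ω (cr (par s v)) z := by
  have hx : inc p (par s v) = true := by rw [inc_par, hv]; rfl
  obtain ⟨z1, z2⟩ := not_onW_ne T hv hz
  rw [h] at z2
  have a1 := step_av (z := z) (s := s) T (ω := ω) hx hs z2 (by rw [par_par]; exact z1)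
  obtain ⟨n, a2⟩ := (wire_ptA T hv hz).av hω (out_mem_S T hv)
  rw [par_par] at a1
  rw [h] at a2
  exact (a1.trans a2).loop (by omega)

/-- the loop of an ear with two passages -/
lemma loop2 (T : Tiles X lb p cr) {ω : Finset (ℤ × ℤ)} (hω : ω ⊆ X.E) {s : ι → Bool}
    {v : ι × Dir} (hv : inc p v = false) (hs : stt lb p ω v.1 = s v.1)
    (hs' : stt lb p ω (wπ T v).1 = s (wπ T v).1) (h : wπ T (par s (wπ T v)) = par s v)
    (hz : ¬ OnW T v z) (hz' : ¬ OnW T (par s (wπ T v)) z) :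
    LpA X ω (cr (par s v)) z ∧ LpA X ω (cr (wπ T v)) z := by
  have hx : inc p (par s v) = true := by rw [inc_par, hv]; rfl
  have hy : inc p (wπ T v) = true := by rw [inc_wπ, hv]; rfl
  have hw : inc p (par s (wπ T v)) = false := by rw [inc_par, hy]; rfl
  obtain ⟨z1, z2⟩ := not_onW_ne T hv hz
  obtain ⟨z3, z4⟩ := not_onW_ne T hw hz'
  rw [h] at z4
  have a1 := step_av (z := z) (s := s) T (ω := ω) hx hs z4 (by rw [par_par]; exact z1)
  obtain ⟨n, a2⟩ := (wire_ptA T hv hz).av hω (out_mem_S T hv)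
  have a3 := step_av (z := z) (s := s) T (ω := ω) hy hs' z2 z3
  obtain ⟨m, a4⟩ := (wire_ptA T hw hz').av hω (out_mem_S T hw)
  rw [par_par] at a1
  rw [h] at a4
  have hl := ((a1.trans a2).trans (a3.trans a4)).loop (by omega)
  refine ⟨hl, fun h' => hl ?_⟩
  exact inOrb_trans ⟨_, (a1.trans a2).1⟩ h'

/-! ### Removal of tiles -/

/-- the state of the removed tiles: open iff `b` -/
def kp (b : Bool) (D : Finset (ℤ × ℤ)) : Finset (ℤ × ℤ) := if b then D else ∅

lemma kp_sub (b : Bool) (D : Finset (ℤ × ℤ)) : kp b D ⊆ D := by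
  unfold kp; cases b <;> simp

lemma stt_eq (i : ι) (b : Bool) (ω : Finset (ℤ × ℤ)) :
    stt lb p ω i = sgn p b i ↔ (lb i ∈ ω ↔ b = false) := by
  unfold stt sgn
  by_cases h : lb i ∈ ω <;> cases hp : p i <;> cases b <;> simp [h]

lemma stt_kp {i : ι} {b : Bool} {D : Finset (ℤ × ℤ)} (h : lb i ∈ D) :
    stt lb p (kp b D) i = sgn p (!b) i := by
  rw [stt_eq]
  unfold kp
  cases b <;> simp [h]

/-- the environment without the tiles `D` -/
noncomputable def rem (X : Env) (b : Bool) (D : Finset (ℤ × ℤ)) : Env := X.freeze (X.E \ D) (kp b D)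

lemma rem_E {b : Bool} {D : Finset (ℤ × ℤ)} : (rem X b D).E = X.E \ D := by
  unfold rem; rw [Env.freeze_E]; exact inter_eq_right.2 sdiff_subset

lemma rem_c0 {b : Bool} {D : Finset (ℤ × ℤ)} : (rem X b D).c0 = X.c0 := rfl

lemma rem_incO {b : Bool} {D ω : Finset (ℤ × ℤ)} (hD : D ⊆ X.E) (hω : ω ⊆ X.E \ D)
    (c : ℤ × ℤ) : (rem X b D).incO ω c = X.incO (ω ∪ kp b D) c := by
  unfold rem
  rw [Env.freeze_incO (by rwa [inter_eq_right.2 sdiff_subset])]
  congr 2
  rw [sdiff_sdiff_right_self, inf_eq_inter, inter_eq_right.2 hD]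
  exact inter_eq_left.2 (kp_sub b D)

lemma rem_incW {b : Bool} {D : Finset (ℤ × ℤ)} (hD : D ⊆ X.E) (q : ℤ × ℤ → ℂ) (c : ℤ × ℤ) :
    (rem X b D).incW q c = Ec q (X.E \ D) (fun ω => X.incO (ω ∪ kp b D) c) := by
  unfold Env.incW
  rw [rem_E]
  exact Ec_congr fun ω hω => rem_incO hD hω c

lemma incW_one {e : ℤ × ℤ} (he : e ∈ X.E) (q : ℤ × ℤ → ℂ) (c : ℤ × ℤ) :
    X.incW q c = (1 - q e) * Ec q (X.E \ {e}) (fun ω => X.incO ω c) +
      q e * Ec q (X.E \ {e}) (fun ω => X.incO (insert e ω) c) := by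
  unfold Env.incW
  have h1 : X.E = insert e (X.E \ {e}) := by
    ext x; simp only [mem_insert, mem_sdiff, mem_singleton]
    constructor
    · intro h; by_cases hx : x = e
      · exact Or.inl hx
      · exact Or.inr ⟨h, hx⟩
    · rintro (rfl | h)
      · exact he
      · exact h.1
  conv_lhs => rw [h1]
  rw [Ec_insert q (by simp)]

/-- an irrelevant tile -/
lemma incW_drop {e : ℤ × ℤ} (he : e ∈ X.E) (q : ℤ × ℤ → ℂ) (c : ℤ × ℤ)
    (h : ∀ ω, ω ⊆ X.E \ {e} → X.incO ω c = X.incO (insert e ω) c) (b : Bool) :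
    X.incW q c = (rem X b {e}).incW q c := by
  rw [incW_one he, rem_incW (by simpa using he)]
  rw [Ec_congr h]
  have e1 : Ec q (X.E \ {e}) (fun ω => X.incO (ω ∪ kp b {e}) c) =
      Ec q (X.E \ {e}) (fun ω => X.incO (insert e ω) c) := by
    refine Ec_congr fun ω hω => ?_
    cases b
    · show X.incO (ω ∪ ∅) c = _
      rw [union_empty, h ω hω]
    · show X.incO (ω ∪ {e}) c = _
      rw [union_comm]; rfl
  rw [e1]; ring

/-- a tile with one state in which the increment vanishes -/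
lemma incW_root {e : ℤ × ℤ} (he : e ∈ X.E) (q : ℤ × ℤ → ℂ) (c : ℤ × ℤ) (b : Bool)
    (h : ∀ ω, ω ⊆ X.E \ {e} → X.incO (ω ∪ kp (!b) {e}) c = 0) :
    X.incW q c = (if b then q e else 1 - q e) * (rem X b {e}).incW q c := by
  rw [incW_one he, rem_incW (by simpa using he)]
  have hi : ∀ ω : Finset (ℤ × ℤ), insert e ω = ω ∪ {e} := fun ω => by rw [union_comm]; rfl
  simp only [hi]
  cases b
  · have e1 : Ec q (X.E \ {e}) (fun ω => X.incO (ω ∪ {e}) c) = 0 := by
      rw [Ec_congr (G := fun _ => 0) (fun ω hω => by have := h ω hω; simpa [kp] using this), Ec_const]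
    rw [e1]
    simp [kp]
  · have e1 : Ec q (X.E \ {e}) (fun ω => X.incO ω c) = 0 := by
      rw [Ec_congr (G := fun _ => 0) (fun ω hω => by have := h ω hω; simpa [kp] using this), Ec_const]
    rw [e1]
    simp [kp]

/-- two tiles with three equal states -/
lemma incW_two {e e' : ℤ × ℤ} (he : e ∈ X.E) (he' : e' ∈ X.E) (hne : e ≠ e') (q : ℤ × ℤ → ℂ)
    (c : ℤ × ℤ) (b : Bool) (hq : q e * q e' = 1) (hq' : (1 - q e) * (1 - q e') = 1)
    (h : ∀ ω, ω ⊆ X.E \ {e, e'} →
      X.incO (ω ∪ kp (!b) {e, e'}) c = X.incO (insert e ω) c ∧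
      X.incO (ω ∪ kp (!b) {e, e'}) c = X.incO (insert e' ω) c) :
    X.incW q c = (rem X b {e, e'}).incW q c := by
  have hD : ({e, e'} : Finset (ℤ × ℤ)) ⊆ X.E := by
    intro x hx; rw [mem_insert, mem_singleton] at hx
    rcases hx with rfl | rfl
    · exact he
    · exact he'
  rw [rem_incW hD]
  unfold Env.incW
  have h1 : X.E = insert e (insert e' (X.E \ {e, e'})) := by
    ext x; simp only [mem_insert, mem_sdiff, mem_singleton]
    constructor
    · intro h
      by_cases hx : x = e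
      · exact Or.inl hx
      · by_cases hx' : x = e'
        · exact Or.inr (Or.inl hx')
        · exact Or.inr (Or.inr ⟨h, by tauto⟩)
    · rintro (rfl | rfl | h)
      · exact he
      · exact he'
      · exact h.1
  conv_lhs => rw [h1]
  rw [Ec_insert q (by simp [hne]), Ec_insert q (by simp), Ec_insert q (by simp)]
  have hi : ∀ ω : Finset (ℤ × ℤ), insert e (insert e' ω) = ω ∪ {e, e'} := fun ω => by
    ext x; simp only [mem_insert, mem_union, mem_singleton]; tauto
  simp only [hi]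
  cases b
  · have h2 : ∀ ω, ω ⊆ X.E \ {e, e'} → X.incO (ω ∪ {e, e'}) c = X.incO (insert e ω) c ∧
      X.incO (ω ∪ {e, e'}) c = X.incO (insert e' ω) c := fun ω hω => by
        have := h ω hω; simpa [kp] using this
    rw [← Ec_congr (fun ω hω => (h2 ω hω).1), ← Ec_congr (fun ω hω => (h2 ω hω).2)]
    simp only [kp, union_empty, Bool.false_eq_true, if_false]
    linear_combination (Ec q (X.E \ {e, e'}) (fun ω => X.incO ω c) -
      Ec q (X.E \ {e, e'}) (fun ω => X.incO (ω ∪ {e, e'}) c)) * hq'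
  · have h2 : ∀ ω, ω ⊆ X.E \ {e, e'} → X.incO ω c = X.incO (insert e ω) c ∧
      X.incO ω c = X.incO (insert e' ω) c := fun ω hω => by
        have := h ω hω; simpa [kp] using this
    rw [← Ec_congr (fun ω hω => (h2 ω hω).1), ← Ec_congr (fun ω hω => (h2 ω hω).2)]
    simp only [kp, if_true]
    linear_combination (Ec q (X.E \ {e, e'}) (fun ω => X.incO (ω ∪ {e, e'}) c) -
      Ec q (X.E \ {e, e'}) (fun ω => X.incO ω c)) * hq

end Pool.Agent.H36.W
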